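import Pool.Agent.H15.U.Defs2
import Pool.Agent.H89.U3.Stmts

/-!
# Project U4 (MP_0c7934_co): at least `c M` parameters for every `M` divisible by `2 ^ k₀`

The case of even `n`: the chirp is `e^{i π c y² / n}`, the group is cyclic of order `2 τ n`.
-/

namespace Pool.Agent.H89.U4

open Pool.Agent.H26.U Pool.Agent.H15.U Pool.Agent.H89.MOD Pool.Agent.H89.U3

/-- reduction from `ZMod (2 n)` to `ZMod n` -/
def dn (n : ℕ) : ZMod (2 * n) →+* ZMod n := ZMod.castHom (dvd_mul_left n 2) (ZMod n)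

/-- for even `n` the square of an element of `ZMod n` is well defined modulo `2 n` -/
def sq {n : ℕ} (y : ZMod n) : ZMod (2 * n) := ((y.val : ℕ) : ZMod (2 * n)) ^ 2

/-- `sin (π v / n)` for `v : ZMod n` (only its square and its absolute value depend on `v` alone) -/
noncomputable def hz {n : ℕ} (v : ZMod n) : ℝ := Real.sin (Real.pi * ((v.val : ℝ) / n))

/-- the amplitude modulated chirp: phase `κ(y) cos (2 π m y / n + π i / 3)` -/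
noncomputable def fame {n : ℕ} (κ : ZMod n → ℝ) (m : ZMod n) (i : Fin 6) (y : ZMod n) : ℂ :=
  ez (sq y) * Complex.exp (Complex.I * ((κ y * (ez (m * y) * e6 i).re : ℝ) : ℂ))

/-- what is left of the autocorrelations of the family without the linear part -/
noncomputable def fameT {n : ℕ} [NeZero n] (lam : ℝ) (m : ZMod n) (ρ : ZMod n → ℝ)
    (x : ZMod n) : ℂ :=
  ∑ i, acf (fame (fun y => lam + ρ y) m i) x +
    6 * lam * (hz (m * x) : ℂ) ^ 2 * (ez (sq x) + ez (-(sq x))) * ∑ y, (ρ y : ℂ) * ez (x * y)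

/-- `n` even: `f` is zero at `0` and `n / 2` and unimodular on one of `y`, `-y`, zero on the
other -/
structure HalfEven {n : ℕ} (f : ZMod n → ℂ) : Prop where
  zero : f 0 = 0
  mid : f ((n / 2 : ℕ) : ZMod n) = 0
  half : ∀ y, y ≠ 0 → y ≠ ((n / 2 : ℕ) : ZMod n) →
    (‖f y‖ = 1 ∧ f (-y) = 0) ∨ (f y = 0 ∧ ‖f (-y)‖ = 1)

/-- `n` even: `f` is unimodular on one of `y`, `-1 - y` and zero on the other -/
structure HalfOdd {n : ℕ} (f : ZMod n → ℂ) : Prop where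
  half : ∀ y, (‖f y‖ = 1 ∧ f (-1 - y) = 0) ∨ (f y = 0 ∧ ‖f (-1 - y)‖ = 1)

/-- EXPE: expansion of the autocorrelation of a perturbed chirp (compare EXP) -/
def S_EXPE : Prop := ∀ (n : ℕ) [NeZero n], Even n → ∀ c : ZMod (2 * n), IsUnit c →
  ∀ ψ : ZMod n → ℝ, ∀ x, x ≠ 0 →
  acf (fun y : ZMod n => ez (c * sq y) * Complex.exp (Complex.I * ψ y)) x =
    2 * (sz (c * sq x) : ℂ) * ∑ y, (ψ y : ℂ) * ez (dn n c * x * y) +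
    ∑ y, ez (dn n c * x * y) * ez (-(c * sq x)) *
      (Complex.exp (Complex.I * ((ψ y - ψ (y - x) : ℝ) : ℂ)) - 1
        - Complex.I * ((ψ y - ψ (y - x) : ℝ) : ℂ))

/-- PVE: Parseval inequality (compare PV) -/
def S_PVE : Prop := ∀ (n : ℕ) [NeZero n], ∀ c : ZMod n, IsUnit c → ∀ g : ZMod n → ℂ,
  ∑ y, ((∑ x, g x * ez (-(c * x * y))).re) ^ 2 ≤ n * ∑ x, ‖g x‖ ^ 2

/-- INVE: inversion (compare INV) -/
def S_INVE : Prop := ∀ (n : ℕ) [NeZero n], ∀ c : ZMod n, IsUnit c → ∀ g : ZMod n → ℂ,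
  (∀ x, g (-x) = star (g x)) → ∀ x,
  ∑ y, (((∑ x', g x' * ez (-(c * x' * y))).re : ℝ) : ℂ) * ez (c * x * y) = n * g x

/-- LEVE: the levels (compare LEV) -/
def S_LEVE : Prop := ∀ (n : ℕ) [NeZero n] (μ t : ℕ), 2 ≤ μ → n ≤ μ ^ (2 * t) →
  ∀ x : ZMod n, x ≠ 0 → x ^ 2 = 0 →
  1 / (μ : ℝ) ^ 2 ≤ ∑ l ∈ Finset.range t, hz (((μ ^ l : ℕ) : ZMod n) * x) ^ 2

/-- FAME: the amplitude modulated family (compare FAM) -/
def S_FAME : Prop := ∀ (n : ℕ) [NeZero n], Even n → ∀ (m x : ZMod n), x ≠ 0 → ∀ lam : ℝ,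
  0 ≤ lam → lam ≤ 1 → ‖fameT lam m (fun _ => 0) x‖ ≤ n * lam ^ 6 ∧
  ∀ ρ ρ' : ZMod n → ℝ, (∀ y, |ρ y| ≤ 1) → (∀ y, |ρ' y| ≤ 1) →
  ‖fameT lam m ρ x - fameT lam m ρ' x‖ ≤
    200 * (nr ρ + nr ρ' + lam ^ 3 * √n) * nr (fun y => ρ y - ρ' y)

/-- UBE: sum over the units, half angle, all `m ≥ 2` (compare UB2) -/
def S_UBE : Prop := ∃ C : ℝ, 0 < C ∧ ∀ (m : ℕ) [NeZero m], 2 ≤ m →
  ∑ u : (ZMod m)ˣ, 1 / √|hz (u : ZMod m)| ≤ C * (Nat.totient m : ℝ)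

/-- UXE (from UBE; compare UX2) -/
def S_UXE : Prop := ∃ C : ℝ, 0 < C ∧ ∀ (n : ℕ) [NeZero n], 2 ≤ n →
  ∀ z : ZMod n, z ≠ 0 → ∑ c : (ZMod n)ˣ, 1 / √|hz ((c : ZMod n) * z)| ≤ C * (Nat.totient n : ℝ)

/-- UNIE (from UXE; compare UNI2); `sz (c * sq x) ^ 2 = hz (dn n c * x ^ 2) ^ 2` and every unit of
`ZMod n` lifts to a unit of `ZMod (2 n)` -/
def S_UNIE : Prop := ∃ A1 : ℝ, ∀ (n : ℕ) [NeZero n], Even n → 4 ≤ n →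
  ∃ c : Fin 4 → ZMod (2 * n), (∀ j, IsUnit (c j)) ∧
  (∀ x : ZMod n, x ^ 2 ≠ 0 → 0 < ∑ j, sz (c j * sq x) ^ 2) ∧
  1 / (n : ℝ) * ∑ x ∈ Finset.univ.filter (fun x : ZMod n => x ^ 2 ≠ 0),
    1 / ∑ j, sz (c j * sq x) ^ 2 ≤ A1

/-- FIXE (from EXPE, PVE, INVE, QL, LEVE, CK0, FAME, BANC; compare FIX2, FIX2C) -/
def S_FIXE : Prop := ∀ A1 R0 : ℝ, ∃ K n0 : ℕ, ∀ (n : ℕ) [NeZero n], Even n → n0 ≤ n →
  ∀ c : Fin 4 → ZMod (2 * n), (∀ j, IsUnit (c j)) →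
  (∀ x : ZMod n, x ^ 2 ≠ 0 → 0 < ∑ j, sz (c j * sq x) ^ 2) →
  1 / (n : ℝ) * ∑ x ∈ Finset.univ.filter (fun x : ZMod n => x ^ 2 ≠ 0),
    1 / ∑ j, sz (c j * sq x) ^ 2 ≤ A1 →
  ∀ (T : Type) [TopologicalSpace T] (r0 : T → ZMod n → ℂ), Continuous r0 →
  (∀ t x, r0 t (-x) = star (r0 t x)) → (∀ t x, x ≠ 0 → ‖r0 t x‖ ≤ R0) →
  ∃ v : T → Fin K → ZMod n → ℂ, Continuous v ∧ (∀ t j y, ‖v t j y‖ = 1) ∧
    ∀ t x, x ≠ 0 → r0 t x + ∑ j, acf (v t j) x = 0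

/-- CRNE (from VBD; compare CRN) -/
def S_CRNE : Prop := ∃ R0 : ℝ, ∀ (n : ℕ) [NeZero n], Even n → 6 ≤ n →
  ∃ U R w : ZMod n → ℂ, HalfEven U ∧ HalfOdd R ∧ (∀ y, ‖w y‖ = 1) ∧
  ∀ x, x ≠ 0 → ‖acf U x + acf R x + acf w x‖ ≤ R0

/-- SEQE (from CAR, TRI; compare SEQ): the group is `ZMod (2 * τ * n)` -/
def S_SEQE : Prop := ∀ (τ n : ℕ) [NeZero n], 1 ≤ τ → Even n → 6 ≤ n →
  ∀ (U R : ZMod n → ℂ) (d : ℕ) (v : (Fin d → ℝ) → Fin (τ - 1) → ZMod n → ℂ), HalfEven U →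
  HalfOdd R → Continuous v → Function.Injective v → (∀ s j y, ‖v s j y‖ = 1) →
  (∀ s x, x ≠ 0 → acf U x + acf R x + ∑ j, acf (v s j) x = 0) →
  FamEx (8 ^ (τ + 1) * (2 * τ * n)) d

/-- WFAME (from EXPE, FIXE, UNIE, CRNE; compare WFAM) -/
def S_WFAME : Prop := ∃ K n0 : ℕ, ∀ (n : ℕ) [NeZero n], Even n → n0 ≤ n → ∀ p : ℕ,
  ∃ (U R : ZMod n → ℂ) (v : (Fin ((p + 1) * n) → ℝ) → Fin (K + 1 + p) → ZMod n → ℂ),
    HalfEven U ∧ HalfOdd R ∧ Continuous v ∧ Function.Injective v ∧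
    (∀ s j y, ‖v s j y‖ = 1) ∧
    ∀ s x, x ≠ 0 → acf U x + acf R x + ∑ j, acf (v s j) x = 0

/-- LIN (from SEQE, WFAME, MAINC) -/
def S_LIN : Prop := ∃ (k0 : ℕ) (c : ℝ), 0 < c ∧ ∀ M : ℕ, 1 ≤ M → 2 ^ k0 ∣ M →
  ∃ d : ℕ, c * M ≤ d ∧ FamEx (2 * M) d

end Pool.Agent.H89.U4
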