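import Pool.Agent.H23.U.CRN
import Pool.Agent.H89.U4.Stmts

/-!
# Project U4: the corner theorem for even `n` (CRNE)
-/

namespace Pool.Agent.H89.U4C

open Pool.Agent.H26.U
open Pool.Agent.H89.U4 hiding sq
open Pool.Agent.H23.U (Low tau ph val_pos val_neg ez_two_mul one_sub_cpow acf_neg' acf_refl
  kap_exp kap_neg kap_abs tau_lt)

set_option linter.unusedSectionVars false
set_option linter.style.haveILetI false


variable {n : ℕ} [NeZero n]

lemma npos : 0 < n := Nat.pos_of_ne_zero (NeZero.ne n)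

lemma two_mul_val (y : ZMod n) : (2 * y : ZMod n) = ((2 * y.val : ℕ) : ZMod n) := by
  push_cast
  rw [ZMod.natCast_zmod_val]

lemma tau_eq (y : ZMod n) : tau y = ((2 * y : ZMod n).val : ℝ) / n := by
  have h1 := ZMod.val_lt y
  have hn0 : (n : ℝ) ≠ 0 := by
    have : (0 : ℝ) < n := by exact_mod_cast (npos : 0 < n)
    exact this.ne'
  rw [two_mul_val, ZMod.val_natCast]
  unfold tau Low
  by_cases h : 2 * y.val < n
  · rw [if_pos h, Nat.mod_eq_of_lt h]
    push_cast
    ring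
  · rw [if_neg h, Nat.mod_eq_sub_mod (by omega), Nat.mod_eq_of_lt (by omega), Nat.cast_sub (by omega)]
    push_cast
    field_simp

lemma tau_pos' {y : ZMod n} (hy : 2 * y ≠ 0) : 0 < tau y := by
  rw [tau_eq]
  have h1 := val_pos hy
  have hn0 : (0 : ℝ) < n := by exact_mod_cast (npos : 0 < n)
  have : (0 : ℝ) < (2 * y : ZMod n).val := by exact_mod_cast h1
  positivity

lemma tau_neg' {y : ZMod n} (hy : 2 * y ≠ 0) : tau (-y) = 1 - tau y := by
  rw [tau_eq, tau_eq, mul_neg, val_neg hy, Nat.cast_sub (ZMod.val_lt _).le]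
  have hn0 : (n : ℝ) ≠ 0 := by
    have : (0 : ℝ) < n := by exact_mod_cast (npos : 0 < n)
    exact this.ne'
  field_simp

lemma reg_ne {y : ZMod n} (hy : 2 * y ≠ 0) : y ≠ 0 := by
  rintro rfl
  exact hy (mul_zero _)

lemma reg_half {y : ZMod n} (hy : 2 * y ≠ 0) : 2 * y.val ≠ n := by
  intro h
  apply hy
  rw [two_mul_val, h, ZMod.natCast_self]

lemma nreg {y : ZMod n} (hy : 2 * y = 0) : y = 0 ∨ 2 * y.val = n := by
  rw [two_mul_val, ZMod.natCast_eq_zero_iff] at hy
  have h1 := ZMod.val_lt y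
  obtain ⟨c, hc⟩ := hy
  have hc2 : c < 2 := by
    by_contra h
    have : n * 2 ≤ n * c := Nat.mul_le_mul_left n (by omega)
    omega
  interval_cases c
  · left
    apply (ZMod.val_eq_zero y).mp
    omega
  · right
    omega

lemma low_neg' {y : ZMod n} (hy : y ≠ 0) (hy2 : 2 * y.val ≠ n) : Low (-y) ↔ ¬ Low y := by
  unfold Low
  rw [val_neg hy]
  have h1 := ZMod.val_lt y
  omega

/-! ### the square modulo `2 n` -/

lemma n_sq (hn : Even n) : ((n : ℕ) : ZMod (2 * n)) ^ 2 = 0 := by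
  obtain ⟨l, hl⟩ := hn
  have : ((n ^ 2 : ℕ) : ZMod (2 * n)) = 0 := by
    rw [ZMod.natCast_eq_zero_iff]
    exact ⟨l, by rw [sq]; nth_rewrite 2 [hl]; ring⟩
  rw [← this]
  push_cast
  ring

lemma two_n : 2 * ((n : ℕ) : ZMod (2 * n)) = 0 := by
  have : ((2 * n : ℕ) : ZMod (2 * n)) = 0 := ZMod.natCast_self _
  rw [← this]
  push_cast
  ring

lemma sq_natCast (hn : Even n) (k : ℕ) :
    Pool.Agent.H89.U4.sq ((k : ℕ) : ZMod n) = ((k : ℕ) : ZMod (2 * n)) ^ 2 := by
  unfold Pool.Agent.H89.U4.sq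
  rw [ZMod.val_natCast]
  have h1 : ((k : ℕ) : ZMod (2 * n)) = ((k % n : ℕ) : ZMod (2 * n)) +
      (n : ZMod (2 * n)) * ((k / n : ℕ) : ZMod (2 * n)) := by
    conv_lhs => rw [← Nat.mod_add_div k n]
    push_cast
    ring
  rw [h1]
  have h2 := n_sq hn
  have h3 := two_n (n := n)
  linear_combination (-((k % n : ℕ) : ZMod (2 * n)) * ((k / n : ℕ) : ZMod (2 * n))) * h3 -
    ((k / n : ℕ) : ZMod (2 * n)) ^ 2 * h2

lemma sq_sub (hn : Even n) (x y : ZMod n) :
    Pool.Agent.H89.U4.sq (y - x) = (((y.val : ℕ) : ZMod (2 * n)) - ((x.val : ℕ) : ZMod (2 * n))) ^ 2 := by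
  have hx := (ZMod.val_lt x).le
  have e : y - x = ((y.val + (n - x.val) : ℕ) : ZMod n) := by
    rw [Nat.cast_add, Nat.cast_sub hx, ZMod.natCast_self, ZMod.natCast_zmod_val,
      ZMod.natCast_zmod_val]
    ring
  rw [e, sq_natCast hn, Nat.cast_add, Nat.cast_sub hx]
  have h2 := n_sq hn
  have h3 := two_n (n := n)
  linear_combination (((y.val : ℕ) : ZMod (2 * n)) - ((x.val : ℕ) : ZMod (2 * n))) * h3 + h2

lemma ez_sq_mul (hn : Even n) (x y : ZMod n) :
    ez (Pool.Agent.H89.U4.sq y) * ez (-(Pool.Agent.H89.U4.sq (y - x))) = ez (-(Pool.Agent.H89.U4.sq x)) * ez (x * y) := by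
  haveI : NeZero (2 * n) := ⟨by have := (npos : 0 < n); omega⟩
  have e1 : ez (x * y) = ez (2 * (((x.val : ℕ) : ZMod (2 * n)) * ((y.val : ℕ) : ZMod (2 * n)))) := by
    have h1 : x * y = ((x.val * y.val : ℕ) : ZMod n) := by
      push_cast
      rw [ZMod.natCast_zmod_val, ZMod.natCast_zmod_val]
    have h2 : 2 * (((x.val : ℕ) : ZMod (2 * n)) * ((y.val : ℕ) : ZMod (2 * n))) =
        ((2 * (x.val * y.val) : ℕ) : ZMod (2 * n)) := by push_cast; ring
    rw [h1, h2, ez_natCast, ez_natCast]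
    congr 2
    have hn0 : (n : ℂ) ≠ 0 := by exact_mod_cast (NeZero.ne n)
    push_cast
    field_simp
  rw [e1, ← ez_add, ← ez_add, sq_sub hn]
  congr 1
  unfold Pool.Agent.H89.U4.sq
  ring

/-! ### the sequence -/

/-- `w y = ez (Pool.Agent.H89.U4.sq y) (2 sin π τ)^{i κ}` -/
noncomputable def w {n : ℕ} (y : ZMod n) : ℂ :=
  ez (Pool.Agent.H89.U4.sq y) * Complex.exp ((ph y : ℂ) * Complex.I)

lemma norm_w (y : ZMod n) : ‖w y‖ = 1 := by
  haveI : NeZero (2 * n) := ⟨by have := (npos : 0 < n); omega⟩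
  rw [w, norm_mul, norm_ez, Complex.norm_exp_ofReal_mul_I, one_mul]

lemma sq_neg (hn : Even n) (y : ZMod n) : Pool.Agent.H89.U4.sq (-y) = Pool.Agent.H89.U4.sq y := by
  have := sq_sub hn y 0
  rw [zero_sub, ZMod.val_zero] at this
  rw [this]
  unfold Pool.Agent.H89.U4.sq
  push_cast
  ring

lemma ph_neg (y : ZMod n) : ph (-y) = ph y := by
  unfold ph
  by_cases hy : 2 * y = 0
  · rw [tau_eq, tau_eq, mul_neg, hy, neg_zero]
  · rw [tau_neg' hy]
    have : Real.pi * (1 - tau y) = Real.pi - Real.pi * tau y := by ring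
    rw [this, Real.sin_pi_sub]

lemma w_neg (hn : Even n) (y : ZMod n) : w (-y) = w y := by
  rw [w, w, sq_neg hn, ph_neg]

/-- lower half -/
noncomputable def U {n : ℕ} (y : ZMod n) : ℂ := if 2 * y ≠ 0 ∧ Low y then w y else 0

/-- upper half -/
noncomputable def V {n : ℕ} (y : ZMod n) : ℂ := if 2 * y ≠ 0 ∧ ¬ Low y then w y else 0

/-- lower half with `0` -/
noncomputable def Ut {n : ℕ} (y : ZMod n) : ℂ := if Low y then w y else 0

/-- reversed -/
noncomputable def Rv {n : ℕ} (y : ZMod n) : ℂ := Ut (((n / 2 - 1 : ℕ) : ZMod n) - y)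

lemma U_neg (hn : Even n) (y : ZMod n) : U (-y) = V y := by
  unfold U V
  by_cases hy : 2 * y = 0
  · have : 2 * -y = 0 := by rw [mul_neg, hy, neg_zero]
    simp [hy]
  · have h1 : 2 * -y ≠ 0 := by rw [mul_neg]; exact neg_ne_zero.mpr hy
    simp only [ne_eq, h1, not_false_eq_true, low_neg' (reg_ne hy) (reg_half hy), true_and, hy,
      w_neg hn]

lemma norm_U_le (y : ZMod n) : ‖U y‖ ≤ 1 := by
  unfold U
  split_ifs
  · rw [norm_w]
  · simp

lemma half_val (_hn : Even n) : (((n / 2 : ℕ) : ZMod n)).val = n / 2 := by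
  rw [ZMod.val_natCast, Nat.mod_eq_of_lt]
  have := (npos : 0 < n)
  omega

lemma eq_half (_hn : Even n) {y : ZMod n} (h : 2 * y.val = n) : y = ((n / 2 : ℕ) : ZMod n) := by
  rw [← ZMod.natCast_zmod_val y]
  congr 1
  omega

lemma halfEven_U (hn : Even n) : HalfEven (U (n := n)) where
  zero := by simp [U]
  mid := by
    unfold U
    rw [if_neg]
    rintro ⟨h1, -⟩
    apply h1
    rw [two_mul_val, half_val hn]
    have : 2 * (n / 2) = n := by obtain ⟨l, hl⟩ := hn; omega
    rw [this, ZMod.natCast_self]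
  half y hy hy2 := by
    have hr : 2 * y ≠ 0 := by
      intro h
      rcases nreg h with h | h
      · exact hy h
      · exact hy2 (eq_half hn h)
    rw [U_neg hn]
    unfold U V
    by_cases h : Low y
    · left
      simp only [ne_eq, hr, not_false_eq_true, h, and_self, if_true, not_true_eq_false, and_false,
        if_false, norm_w]
    · right
      simp only [ne_eq, hr, not_false_eq_true, h, and_self, if_true, and_false,
        if_false, norm_w]

lemma norm_Ut (y : ZMod n) : (Low y ∧ ‖Ut y‖ = 1) ∨ (¬ Low y ∧ Ut y = 0) := by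
  unfold Ut
  by_cases h : Low y
  · left; exact ⟨h, by rw [if_pos h, norm_w]⟩
  · right; exact ⟨h, by rw [if_neg h]⟩

lemma halfOdd_Rv (hn : Even n) (hn2 : 2 ≤ n) : HalfOdd (Rv (n := n)) where
  half y := by
    obtain ⟨l, hl⟩ := hn
    have hl2 : n / 2 = l := by omega
    have e : (((n / 2 - 1 : ℕ) : ZMod n) - (-1 - y)) =
        -1 - (((n / 2 - 1 : ℕ) : ZMod n) - y) := by
      have h1 : ((n / 2 - 1 : ℕ) : ZMod n) + ((n / 2 - 1 : ℕ) : ZMod n) + 2 = 0 := by
        have : ((n / 2 - 1 + (n / 2 - 1) + 2 : ℕ) : ZMod n) = 0 := by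
          rw [show n / 2 - 1 + (n / 2 - 1) + 2 = n by omega, ZMod.natCast_self]
        rw [← this]; push_cast; ring
      linear_combination h1
    unfold Rv
    rw [e]
    generalize (((n / 2 - 1 : ℕ) : ZMod n) - y) = z
    -- `Low (-1 - z) ↔ ¬ Low z`
    have hz := ZMod.val_lt z
    have e2 : -1 - z = ((n - 1 - z.val : ℕ) : ZMod n) := by
      rw [Nat.cast_sub (by omega), Nat.cast_sub (by omega), ZMod.natCast_self,
        ZMod.natCast_zmod_val]
      push_cast
      ring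
    have hL : Low (-1 - z) ↔ ¬ Low z := by
      unfold Low
      rw [e2, ZMod.val_natCast, Nat.mod_eq_of_lt (by omega)]
      omega
    rcases norm_Ut z with ⟨h1, h2⟩ | ⟨h1, h2⟩
    · left
      refine ⟨h2, ?_⟩
      rcases norm_Ut (-1 - z) with ⟨h3, h4⟩ | ⟨h3, h4⟩
      · exact absurd h1 (hL.mp h3)
      · exact h4
    · right
      refine ⟨h2, ?_⟩
      rcases norm_Ut (-1 - z) with ⟨h3, h4⟩ | ⟨h3, h4⟩
      · exact h4
      · exact absurd (hL.mpr h1) h3

lemma acf_Rv (x : ZMod n) : acf (Rv (n := n)) x = star (acf (Ut (n := n)) x) :=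
  acf_refl Ut _ x

lemma acf_V (hn : Even n) (x : ZMod n) : acf (V (n := n)) x = star (acf (U (n := n)) x) := by
  rw [← acf_refl U 0 x]
  congr 1
  funext y
  rw [zero_sub, U_neg hn]

lemma Ut_eq (y : ZMod n) : Ut y = U y + if y = 0 then w y else 0 := by
  unfold Ut U
  by_cases hy : y = 0
  · subst hy
    have : Low (0 : ZMod n) := by
      unfold Low
      rw [ZMod.val_zero]
      exact npos
    simp [this]
  · rw [if_neg hy, add_zero]
    by_cases hL : Low y
    · have hr : 2 * y ≠ 0 := by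
        intro h
        rcases nreg h with h | h
        · exact hy h
        · unfold Low at hL; omega
      simp [hL, hr]
    · simp [hL]

lemma acf_Ut (x : ZMod n) (hx : x ≠ 0) :
    ‖acf (Ut (n := n)) x - acf (U (n := n)) x‖ ≤ 2 := by
  have h0 : U (0 : ZMod n) = 0 := by simp [U]
  have h1 : acf (Ut (n := n)) x = acf (U (n := n)) x +
      (w (0 : ZMod n) * star (U (-x)) + U x * star (w (0 : ZMod n))) := by
    unfold acf
    have h2 : ∀ y : ZMod n, Ut y * star (Ut (y - x)) = U y * star (U (y - x)) +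
        ((if y = 0 then w (0 : ZMod n) * star (U (-x)) else 0) +
          (if y = x then U x * star (w (0 : ZMod n)) else 0)) := by
      intro y
      rw [Ut_eq, Ut_eq]
      by_cases hy : y = 0
      · subst hy
        rw [if_pos rfl, if_pos rfl, if_neg (Ne.symm hx), zero_sub,
          if_neg (neg_ne_zero.mpr hx), h0]
        simp
      · by_cases hyx : y = x
        · subst hyx
          rw [if_neg hy, if_neg hy, if_pos rfl, sub_self, if_pos rfl, h0]
          simp
        · rw [if_neg hy, if_neg hy, if_neg hyx, if_neg (sub_ne_zero.mpr hyx)]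
          simp
    simp only [h2, Finset.sum_add_distrib]
    rw [Finset.sum_ite_eq', Finset.sum_ite_eq']
    simp
  rw [h1, add_sub_cancel_left]
  refine le_trans (norm_add_le _ _) ?_
  rw [norm_mul, norm_mul, norm_star, norm_star, norm_w, one_mul, mul_one]
  linarith [norm_U_le (-x), norm_U_le x]

/-- the weighted sum -/
noncomputable def wt {n : ℕ} [NeZero n] (x y : ZMod n) : ℂ :=
  U y * star (U (y - x)) + V y * star (V (y - x)) +
    1 / 2 * (U y * star (V (y - x)) + V y * star (U (y - x)))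

lemma w_eq (y : ZMod n) (hy : 2 * y ≠ 0) : w y = U y + V y := by
  unfold U V
  by_cases h : Low y
  · simp [hy, h]
  · simp [hy, h]

lemma UV_zero (y : ZMod n) (hy : 2 * y = 0) : U y = 0 ∧ V y = 0 := by
  simp [U, V, hy]

lemma acf_w (hn : Even n) (x : ZMod n) :
    ‖acf (w (n := n)) x - ∑ y : ZMod n, (U y + V y) * star (U (y - x) + V (y - x))‖ ≤ 4 := by
  unfold acf
  rw [← Finset.sum_sub_distrib]
  obtain ⟨S, hS⟩ : ∃ S : Finset (ZMod n), S = {0, ((n / 2 : ℕ) : ZMod n), x,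
    x + ((n / 2 : ℕ) : ZMod n)} := ⟨_, rfl⟩
  have hc : S.card ≤ 4 := by rw [hS]; exact Finset.card_le_four
  have h1 : ∀ y ∈ (Finset.univ : Finset (ZMod n)), y ∉ S →
      w y * star (w (y - x)) - (U y + V y) * star (U (y - x) + V (y - x)) = 0 := by
    intro y _ hy
    rw [hS] at hy
    simp only [Finset.mem_insert, Finset.mem_singleton, not_or] at hy
    obtain ⟨a1, a2, a3, a4⟩ := hy
    have b1 : 2 * y ≠ 0 := by
      intro h
      rcases nreg h with h | h
      · exact a1 h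
      · exact a2 (eq_half hn h)
    have b2 : 2 * (y - x) ≠ 0 := by
      intro h
      rcases nreg h with h | h
      · exact a3 (sub_eq_zero.mp h)
      · have := eq_half hn h
        apply a4
        rw [← this]; ring
    rw [w_eq y b1, w_eq _ b2, sub_self]
  rw [← Finset.sum_subset (Finset.subset_univ S) h1]
  refine le_trans (norm_sum_le _ _) ?_
  have h2 : ∀ y ∈ S, ‖w y * star (w (y - x)) - (U y + V y) * star (U (y - x) + V (y - x))‖ ≤ 1 := by
    intro y _
    by_cases b1 : 2 * y = 0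
    · rw [(UV_zero y b1).1, (UV_zero y b1).2]
      simp [norm_w]
    · by_cases b2 : 2 * (y - x) = 0
      · rw [(UV_zero _ b2).1, (UV_zero _ b2).2]
        simp [norm_w]
      · rw [w_eq y b1, w_eq _ b2, sub_self]
        simp
  refine le_trans (Finset.sum_le_sum h2) ?_
  rw [Finset.sum_const, nsmul_eq_mul, mul_one]
  exact_mod_cast hc

lemma total (hn : Even n) (x : ZMod n) (hx : x ≠ 0) :
    ‖acf (U (n := n)) x + acf (Rv (n := n)) x + acf (w (n := n)) x - 2 * ∑ y : ZMod n, wt x y‖ ≤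
      6 := by
  have h1 := acf_Ut x hx
  have h2 := acf_w hn x
  have h3 : 2 * ∑ y : ZMod n, wt x y = acf (U (n := n)) x + star (acf (U (n := n)) x) +
      ∑ y : ZMod n, (U y + V y) * star (U (y - x) + V (y - x)) := by
    rw [← acf_V hn]
    unfold acf
    rw [← Finset.sum_add_distrib, ← Finset.sum_add_distrib, Finset.mul_sum]
    apply Finset.sum_congr rfl
    intro y _
    unfold wt
    rw [star_add]
    ring
  rw [acf_Rv, h3]
  have h4 : acf (U (n := n)) x + star (acf (Ut (n := n)) x) + acf (w (n := n)) x -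
      (acf (U (n := n)) x + star (acf (U (n := n)) x) +
      ∑ y : ZMod n, (U y + V y) * star (U (y - x) + V (y - x))) =
      star (acf (Ut (n := n)) x - acf (U (n := n)) x) + (acf (w (n := n)) x -
      ∑ y : ZMod n, (U y + V y) * star (U (y - x) + V (y - x))) := by
    rw [star_sub]
    ring
  rw [h4]
  refine le_trans (norm_add_le _ _) ?_
  rw [norm_star]
  linarith

/-- the product formula -/
lemma prod_form (hn : Even n) (x y : ZMod n) (hy : 2 * y ≠ 0) (hyx : 2 * (y - x) ≠ 0) :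
    w y * star (w (y - x)) = (Real.exp (kap * Real.pi * (tau y - tau (y - x))) : ℂ) *
      (ez (-(Pool.Agent.H89.U4.sq x)) * (ez (x * y) * lzterm kap 1 (2 * x) (2 * y))) := by
  haveI : NeZero (2 * n) := ⟨by have := (npos : 0 < n); omega⟩
  have e1 : lzterm kap 1 (2 * x) (2 * y) =
      Complex.exp (((ph y : ℝ) : ℂ) * Complex.I) *
      Complex.exp (((-ph (y - x) : ℝ) : ℂ) * Complex.I) *
      Complex.exp ((-(kap * Real.pi * (tau y - tau (y - x))) : ℝ) : ℂ) := by
    unfold lzterm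
    have h2 : 2 * y - 2 * x = 2 * (y - x) := by ring
    rw [h2, ez_two_mul, ez_two_mul, Complex.ofReal_one, one_mul, one_mul,
      one_sub_cpow (tau_pos' hy) (tau_lt (reg_ne hy)),
      one_sub_cpow (tau_pos' hyx) (tau_lt (reg_ne hyx)),
      ← Complex.exp_add, ← Complex.exp_add, ← Complex.exp_add]
    congr 1
    unfold ph
    push_cast
    have hI := Complex.I_mul_I
    linear_combination (((Real.pi : ℂ) * tau y - Real.pi / 2) * kap -
      ((Real.pi : ℂ) * tau (y - x) - Real.pi / 2) * kap) * hI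
  have e2 : star (w (y - x)) = ez (-(Pool.Agent.H89.U4.sq (y - x))) *
      Complex.exp (((-ph (y - x) : ℝ) : ℂ) * Complex.I) := by
    unfold w
    rw [star_mul', ← ez_neg]
    congr 1
    rw [Complex.star_def, ← Complex.exp_conj, map_mul, Complex.conj_ofReal, Complex.conj_I]
    congr 1
    push_cast
    ring
  have e3 := ez_sq_mul hn x y
  rw [e2, e1]
  unfold w
  have e4 : (Real.exp (kap * Real.pi * (tau y - tau (y - x))) : ℂ) *
      Complex.exp ((-(kap * Real.pi * (tau y - tau (y - x))) : ℝ) : ℂ) = 1 := by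
    rw [← Complex.ofReal_exp, ← Complex.ofReal_mul, ← Real.exp_add]
    simp
  calc ez (Pool.Agent.H89.U4.sq y) * Complex.exp (↑(ph y) * Complex.I) *
        (ez (-(Pool.Agent.H89.U4.sq (y - x))) * Complex.exp (↑(-ph (y - x)) * Complex.I))
      = (ez (Pool.Agent.H89.U4.sq y) * ez (-(Pool.Agent.H89.U4.sq (y - x)))) * (Complex.exp (↑(ph y) * Complex.I) *
          Complex.exp (↑(-ph (y - x)) * Complex.I)) * 1 := by ring
    _ = _ := by rw [e3, ← e4]; ring

/-- differences of the angle -/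
lemma tau_sub (x y : ZMod n) (hx : x ≠ 0) (hxl : Low x) (hy : 2 * y ≠ 0)
    (hyx : 2 * (y - x) ≠ 0) :
    tau y - tau (y - x) = 2 * (x.val : ℝ) / n - if (Low y ↔ Low (y - x)) then 0 else 1 := by
  have h1 := ZMod.val_lt y
  have h2 := val_pos (reg_ne hy)
  have h3 := ZMod.val_lt x
  have h4 := val_pos hx
  have h5 := ZMod.val_lt (y - x)
  have g1 := reg_half hy
  have g2 := reg_half hyx
  have hn0 : (n : ℝ) ≠ 0 := by
    have : (0 : ℝ) < n := by exact_mod_cast (h2.trans h1)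
    exact this.ne'
  have hne : y.val ≠ x.val := fun h => (reg_ne hyx) (by
    rw [ZMod.val_injective n h, sub_self])
  rcases Nat.lt_or_ge x.val y.val with h | h
  · have h6 : (y - x).val = y.val - x.val := ZMod.val_sub h.le
    have h7 : ((y - x).val : ℝ) = y.val - x.val := by rw [h6, Nat.cast_sub h.le]
    have hLow : Low (y - x) ↔ 2 * (y.val - x.val) < n := by
      unfold Low
      rw [h6]
    have hLy : Low y ↔ 2 * y.val < n := Iff.rfl
    unfold tau
    rw [h7]
    by_cases ha : Low y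
    · have hb : Low (y - x) := by
        rw [hLow]
        rw [hLy] at ha
        omega
      simp only [ha, hb, if_true]
      ring
    · by_cases hb : Low (y - x)
      · simp only [ha, hb, if_true, if_false, iff_true]
        ring
      · simp only [ha, hb, if_true, if_false]
        ring
  · have hlt : y.val < x.val := lt_of_le_of_ne h hne
    have h6 : (y - x).val = y.val + (n - x.val) := by
      have e : y - x = ((y.val + (n - x.val) : ℕ) : ZMod n) := by
        rw [Nat.cast_add, Nat.cast_sub h3.le, ZMod.natCast_self, ZMod.natCast_zmod_val,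
          ZMod.natCast_zmod_val]
        ring
      rw [e, ZMod.val_natCast, Nat.mod_eq_of_lt (by omega)]
    have h7 : ((y - x).val : ℝ) = y.val + (n - x.val) := by
      rw [h6, Nat.cast_add, Nat.cast_sub h3.le]
    have hb : ¬ Low (y - x) := by
      unfold Low at hxl ⊢
      rw [h6]
      omega
    have ha : Low y := by
      unfold Low at hxl ⊢
      omega
    unfold tau
    rw [h7]
    simp only [ha, hb, if_true, if_false, iff_false, not_true_eq_false]
    field_simp
    ring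

lemma wt_eq (hn : Even n) (x y : ZMod n) (hx : x ≠ 0) (hxl : Low x) :
    wt x y = (Real.exp (2 * Real.pi * kap * ((x.val : ℝ) / n)) : ℂ) *
      (ez (-(Pool.Agent.H89.U4.sq x)) * (if 2 * y ≠ 0 ∧ 2 * (y - x) ≠ 0 then
        ez (x * y) * lzterm kap 1 (2 * x) (2 * y) else 0)) := by
  by_cases hr : 2 * y ≠ 0 ∧ 2 * (y - x) ≠ 0
  · obtain ⟨hy, hyx⟩ := hr
    rw [if_pos ⟨hy, hyx⟩]
    have h1 : wt x y = ((if (Low y ↔ Low (y - x)) then 1 else 1 / 2 : ℝ) : ℂ) *
        (w y * star (w (y - x))) := by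
      unfold wt U V
      by_cases ha : Low y
      · by_cases hb : Low (y - x)
        · simp [ha, hb, hy, hyx]
        · simp [ha, hb, hy, hyx]
      · by_cases hb : Low (y - x)
        · simp [ha, hb, hy, hyx]
        · simp [ha, hb, hy, hyx]
    rw [h1, prod_form hn x y hy hyx, ← mul_assoc, ← Complex.ofReal_mul]
    congr 2
    rw [tau_sub x y hx hxl hy hyx]
    split_ifs
    · rw [one_mul]
      congr 1
      ring
    · rw [← kap_exp, ← Real.exp_add]
      congr 1
      ring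
  · rw [if_neg hr, mul_zero, mul_zero]
    unfold wt
    rw [not_and_or, not_not, not_not] at hr
    rcases hr with h | h
    · rw [(UV_zero y h).1, (UV_zero y h).2]; simp
    · rw [(UV_zero _ h).1, (UV_zero _ h).2]; simp

/-! ### the sum over `ZMod n` as a sum over `ZMod m` -/

lemma sum_range {N : ℕ} [NeZero N] (f : ZMod N → ℂ) :
    ∑ y : ZMod N, f y = ∑ k ∈ Finset.range N, f (k : ZMod N) := by
  refine Finset.sum_bij' (fun (y : ZMod N) _ => y.val) (fun (k : ℕ) _ => (k : ZMod N))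
    ?_ ?_ ?_ ?_ ?_
  · intro y _
    exact Finset.mem_range.mpr (ZMod.val_lt y)
  · intro k _
    exact Finset.mem_univ _
  · intro y _
    exact ZMod.natCast_zmod_val y
  · intro k hk
    rw [ZMod.val_natCast, Nat.mod_eq_of_lt (Finset.mem_range.mp hk)]
  · intro y _
    rw [ZMod.natCast_zmod_val]

variable {m : ℕ} [NeZero m] [NeZero (2 * m)]

lemma ez_half (k : ℕ) : ez (2 * ((k : ℕ) : ZMod (2 * m))) = ez ((k : ℕ) : ZMod m) := by
  have h : 2 * ((k : ℕ) : ZMod (2 * m)) = ((2 * k : ℕ) : ZMod (2 * m)) := by push_cast; ring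
  rw [h, ez_natCast, ez_natCast]
  congr 2
  have hm0 : (m : ℂ) ≠ 0 := by exact_mod_cast (NeZero.ne m)
  push_cast
  field_simp

lemma ez_half_sub (k a : ℕ) : ez (2 * ((k : ℕ) : ZMod (2 * m)) - 2 * ((a : ℕ) : ZMod (2 * m))) =
    ez (((k : ℕ) : ZMod m) - ((a : ℕ) : ZMod m)) := by
  rw [ez_sub, ez_sub, ez_half, ez_half]

lemma lz_half (k a : ℕ) (κ : ℝ) :
    lzterm κ 1 (2 * ((a : ℕ) : ZMod (2 * m))) (2 * ((k : ℕ) : ZMod (2 * m))) =
      lzterm κ 1 ((a : ℕ) : ZMod m) ((k : ℕ) : ZMod m) := by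
  unfold lzterm
  rw [ez_half, ez_half_sub]

lemma zero_half (k : ℕ) : 2 * ((k : ℕ) : ZMod (2 * m)) = 0 ↔ ((k : ℕ) : ZMod m) = 0 := by
  rw [← ez_eq_one_iff, ez_half, ez_eq_one_iff]

lemma eq_half_iff (k a : ℕ) : 2 * (((k : ℕ) : ZMod (2 * m)) - ((a : ℕ) : ZMod (2 * m))) = 0 ↔
    ((k : ℕ) : ZMod m) = ((a : ℕ) : ZMod m) := by
  rw [mul_sub, ← ez_eq_one_iff, ez_half_sub, ez_eq_one_iff, sub_eq_zero]

lemma main_bound {C : ℝ} (hC : ∀ κ : ℝ, |κ| ≤ 1 / 4 → ∀ (n : ℕ) [NeZero n], 3 ≤ n →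
    ∀ x : ℕ, 1 ≤ x → 2 * x ≤ n → ∀ X : ZMod n, X ≠ 0 →
    ‖∑ u ∈ (Finset.univ.erase (0 : ZMod n)).erase X,
      ez ((x : ZMod n) * u) * lzterm κ 1 X u‖ ≤ C)
    (hC0 : 0 ≤ C) (hm : 3 ≤ m) (a : ℕ) (ha : 1 ≤ a) (ham : a < m) :
    ‖∑ y : ZMod (2 * m), (if 2 * y ≠ 0 ∧ 2 * (y - ((a : ℕ) : ZMod (2 * m))) ≠ 0 then
        ez (((a : ℕ) : ZMod (2 * m)) * y) *
          lzterm kap 1 (2 * ((a : ℕ) : ZMod (2 * m))) (2 * y) else 0)‖ ≤ 2 * C := by
  obtain ⟨e, he⟩ : ∃ e : ℂ, e = ez ((a : ℕ) : ZMod (2 * m)) := ⟨_, rfl⟩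
  obtain ⟨g, hg⟩ : ∃ g : ℕ → ℂ, g = fun k : ℕ =>
    if ((k : ℕ) : ZMod m) ≠ 0 ∧ ((k : ℕ) : ZMod m) ≠ ((a : ℕ) : ZMod m) then
      lzterm kap 1 ((a : ℕ) : ZMod m) ((k : ℕ) : ZMod m) else 0 := ⟨_, rfl⟩
  have h1 : ∀ k : ℕ, (if 2 * ((k : ℕ) : ZMod (2 * m)) ≠ 0 ∧
      2 * (((k : ℕ) : ZMod (2 * m)) - ((a : ℕ) : ZMod (2 * m))) ≠ 0 then
        ez (((a : ℕ) : ZMod (2 * m)) * ((k : ℕ) : ZMod (2 * m))) *
          lzterm kap 1 (2 * ((a : ℕ) : ZMod (2 * m))) (2 * ((k : ℕ) : ZMod (2 * m))) else 0) =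
      e ^ k * g k := by
    intro k
    rw [hg, he]
    simp only [ne_eq, zero_half, eq_half_iff, lz_half]
    rw [mul_comm ((a : ℕ) : ZMod (2 * m)), ez_natCast_mul]
    split_ifs
    · rfl
    · rw [mul_zero]
  rw [sum_range]
  simp only [h1]
  have h2 : Finset.range (2 * m) = Finset.range (m + m) := by rw [two_mul]
  rw [h2, Finset.sum_range_add]
  have hgm : ∀ k, g (m + k) = g k := by
    intro k
    rw [hg]
    simp only [Nat.cast_add, ZMod.natCast_self, zero_add]
  have h3 : ∑ k ∈ Finset.range m, e ^ (m + k) * g (m + k) =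
      e ^ m * ∑ k ∈ Finset.range m, e ^ k * g k := by
    rw [Finset.mul_sum]
    apply Finset.sum_congr rfl
    intro k _
    rw [hgm, pow_add, mul_assoc]
  rw [h3]
  have he2 : e ^ m = 1 ∨ e ^ m = -1 := by
    apply mul_self_eq_one_iff.mp
    rw [← pow_add, ← two_mul, he, ← ez_natCast_mul, ZMod.natCast_self, zero_mul, ez_zero]
  rcases he2 with h4 | h4
  · have h5 : ((m * a : ℕ) : ZMod (2 * m)) = 0 := by
      rw [← ez_eq_one_iff, Nat.cast_mul, ez_natCast_mul, ← he, h4]
    rw [ZMod.natCast_eq_zero_iff] at h5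
    have h6 : 2 ∣ a := by
      rw [mul_comm 2 m] at h5
      exact Nat.dvd_of_mul_dvd_mul_left (by omega) h5
    obtain ⟨b, hb⟩ := h6
    have h7 : ∀ k : ℕ, e ^ k = ez (((b : ℕ) : ZMod m) * ((k : ℕ) : ZMod m)) := by
      intro k
      have : ((k : ℕ) : ZMod (2 * m)) * ((a : ℕ) : ZMod (2 * m)) =
          2 * ((k * b : ℕ) : ZMod (2 * m)) := by
        rw [hb]; push_cast; ring
      rw [he, ← ez_natCast_mul, this, ez_half, Nat.cast_mul, mul_comm]
    have h8 : ∑ k ∈ Finset.range m, e ^ k * g k =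
        ∑ u ∈ (Finset.univ.erase (0 : ZMod m)).erase ((a : ℕ) : ZMod m),
          ez (((b : ℕ) : ZMod m) * u) * lzterm kap 1 ((a : ℕ) : ZMod m) u := by
      obtain ⟨F, hF⟩ : ∃ F : ZMod m → ℂ, F = fun u : ZMod m =>
          if u ≠ 0 ∧ u ≠ ((a : ℕ) : ZMod m) then
          ez (((b : ℕ) : ZMod m) * u) * lzterm kap 1 ((a : ℕ) : ZMod m) u else 0 := ⟨_, rfl⟩
      have h9 : ∀ k : ℕ, e ^ k * g k = F ((k : ℕ) : ZMod m) := by
        intro k
        rw [h7, hg, hF]
        simp only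
        split_ifs
        · rfl
        · rw [mul_zero]
      rw [Finset.sum_congr rfl (fun k _ => h9 k), ← sum_range, hF, ← Finset.sum_filter]
      apply Finset.sum_congr _ (fun _ _ => rfl)
      ext u
      simp [and_comm]
    have h10 := hC kap kap_abs m hm b (by omega) (by omega) ((a : ℕ) : ZMod m) (by
      rw [Ne, ZMod.natCast_eq_zero_iff]
      intro h
      exact absurd (Nat.le_of_dvd (by omega) h) (by omega))
    rw [h4, one_mul, h8]
    refine le_trans (norm_add_le _ _) ?_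
    linarith
  · rw [h4]
    have : ∑ k ∈ Finset.range m, e ^ k * g k + -1 * ∑ k ∈ Finset.range m, e ^ k * g k = 0 := by
      ring
    rw [this, norm_zero]
    linarith

/-- the bound for `x` in the lower half -/
lemma bound_low {C : ℝ} (hC : ∀ κ : ℝ, |κ| ≤ 1 / 4 → ∀ (n : ℕ) [NeZero n], 3 ≤ n →
    ∀ x : ℕ, 1 ≤ x → 2 * x ≤ n → ∀ X : ZMod n, X ≠ 0 →
    ‖∑ u ∈ (Finset.univ.erase (0 : ZMod n)).erase X,
      ez ((x : ZMod n) * u) * lzterm κ 1 X u‖ ≤ C)
    (hC0 : 0 ≤ C) (hm : 3 ≤ m) (x : ZMod (2 * m)) (hx : x ≠ 0) (hxl : Low x) :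
    ‖acf (U (n := 2 * m)) x + acf (Rv (n := 2 * m)) x + acf (w (n := 2 * m)) x‖ ≤
      4 * C + 6 := by
  have hn : Even (2 * m) := even_two_mul m
  have h0 := total hn x hx
  have h1 := main_bound hC hC0 hm x.val (val_pos hx) (by unfold Low at hxl; omega)
  simp only [ZMod.natCast_zmod_val] at h1
  haveI : NeZero (2 * (2 * m)) := ⟨by omega⟩
  have h2 : ∑ y : ZMod (2 * m), wt x y =
      (Real.exp (2 * Real.pi * kap * ((x.val : ℝ) / (2 * m : ℕ))) : ℂ) *
      (ez (-(Pool.Agent.H89.U4.sq x)) * ∑ y : ZMod (2 * m), (if 2 * y ≠ 0 ∧ 2 * (y - x) ≠ 0 then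
        ez (x * y) * lzterm kap 1 (2 * x) (2 * y) else 0)) := by
    rw [Finset.mul_sum, Finset.mul_sum]
    apply Finset.sum_congr rfl
    intro y _
    exact wt_eq hn x y hx hxl
  have h3 : Real.exp (2 * Real.pi * kap * ((x.val : ℝ) / (2 * m : ℕ))) ≤ 1 := by
    apply Real.exp_le_one_iff.mpr
    have := Real.pi_pos
    have h3 := kap_neg
    have h4 : (0 : ℝ) ≤ (x.val : ℝ) / (2 * m : ℕ) := by positivity
    have h5 : 2 * Real.pi * kap ≤ 0 := by nlinarith
    exact mul_nonpos_of_nonpos_of_nonneg h5 h4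
  have h4 : ‖2 * ∑ y : ZMod (2 * m), wt x y‖ ≤ 4 * C := by
    rw [h2, norm_mul, norm_mul, norm_mul, norm_ez, one_mul, Complex.norm_real, Real.norm_eq_abs,
      Real.abs_exp]
    have : ‖(2 : ℂ)‖ = 2 := by norm_num
    rw [this]
    have h5 := mul_le_mul h3 h1 (norm_nonneg _) (by norm_num)
    linarith
  have h5 := norm_add_le (acf (U (n := 2 * m)) x + acf (Rv (n := 2 * m)) x +
    acf (w (n := 2 * m)) x - 2 * ∑ y : ZMod (2 * m), wt x y) (2 * ∑ y : ZMod (2 * m), wt x y)
  rw [sub_add_cancel] at h5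
  linarith

/-! ### the element of order two -/

lemma not_low_sub {x y : ZMod n} (hx : 2 * x.val = n) (hy : Low y) : ¬ Low (y - x) := by
  have h1 := ZMod.val_lt y
  have e : y - x = ((y.val + (n - x.val) : ℕ) : ZMod n) := by
    rw [Nat.cast_add, Nat.cast_sub (by omega), ZMod.natCast_self, ZMod.natCast_zmod_val,
      ZMod.natCast_zmod_val]
    ring
  unfold Low at hy ⊢
  rw [e, ZMod.val_natCast, Nat.mod_eq_of_lt (by omega)]
  omega

lemma two_mul_half {x : ZMod n} (hx : 2 * x.val = n) : 2 * x = 0 := by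
  rw [two_mul_val, hx, ZMod.natCast_self]

lemma acf_U_half {x : ZMod n} (hx : 2 * x.val = n) : acf (U (n := n)) x = 0 := by
  unfold acf
  apply Finset.sum_eq_zero
  intro y _
  by_cases hy : Low y
  · have : U (y - x) = 0 := by
      unfold U
      rw [if_neg]
      rintro ⟨-, h⟩
      exact not_low_sub hx hy h
    rw [this, star_zero, mul_zero]
  · have : U y = 0 := by
      unfold U
      rw [if_neg]
      rintro ⟨-, h⟩
      exact hy h
    rw [this, zero_mul]

lemma acf_Ut_half {x : ZMod n} (hx : 2 * x.val = n) : acf (Ut (n := n)) x = 0 := by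
  unfold acf
  apply Finset.sum_eq_zero
  intro y _
  by_cases hy : Low y
  · have : Ut (y - x) = 0 := by
      unfold Ut
      rw [if_neg (not_low_sub hx hy)]
    rw [this, star_zero, mul_zero]
  · have : Ut y = 0 := by
      unfold Ut
      rw [if_neg hy]
    rw [this, zero_mul]

lemma acf_w_half (hn : Even n) {x : ZMod n} (hx0 : x ≠ 0) (hx : 2 * x.val = n) :
    acf (w (n := n)) x = 0 := by
  haveI : NeZero (2 * n) := ⟨by have := (npos : 0 < n); omega⟩
  have h1 : ∀ y : ZMod n, w y * star (w (y - x)) = ez (-(Pool.Agent.H89.U4.sq x)) * ez (x * y) := by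
    intro y
    have hp : ph (y - x) = ph y := by
      unfold ph
      rw [tau_eq, tau_eq, mul_sub, two_mul_half hx, sub_zero]
    have e2 : star (w (y - x)) = ez (-(Pool.Agent.H89.U4.sq (y - x))) *
        Complex.exp (((-ph (y - x) : ℝ) : ℂ) * Complex.I) := by
      unfold w
      rw [star_mul', ← ez_neg]
      congr 1
      rw [Complex.star_def, ← Complex.exp_conj, map_mul, Complex.conj_ofReal, Complex.conj_I]
      congr 1
      push_cast
      ring
    have e4 : Complex.exp (((ph y : ℝ) : ℂ) * Complex.I) *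
        Complex.exp (((-ph y : ℝ) : ℂ) * Complex.I) = 1 := by
      rw [← Complex.exp_add]
      have : ((ph y : ℝ) : ℂ) * Complex.I + ((-ph y : ℝ) : ℂ) * Complex.I = 0 := by
        push_cast; ring
      rw [this, Complex.exp_zero]
    rw [e2, hp, ← ez_sq_mul hn x y]
    unfold w
    linear_combination (ez (Pool.Agent.H89.U4.sq y) * ez (-(Pool.Agent.H89.U4.sq (y - x)))) * e4
  unfold acf
  simp only [h1]
  rw [← Finset.mul_sum, sum_ez_mul, if_neg hx0, mul_zero]

theorem CRNE (h : S_VBD) : S_CRNE := by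
  obtain ⟨C, hC⟩ := h
  have hC0 : 0 ≤ C := le_trans (norm_nonneg _)
    (hC 0 (by norm_num) 3 le_rfl 1 le_rfl (by norm_num) 1 (by decide))
  refine ⟨4 * C + 6, ?_⟩
  intro n _ hn hn6
  obtain ⟨m, hm⟩ : ∃ m, n = 2 * m := by
    obtain ⟨m, hm⟩ := hn
    exact ⟨m, by omega⟩
  subst hm
  haveI : NeZero m := ⟨by omega⟩
  refine ⟨U, Rv, w, halfEven_U hn, halfOdd_Rv hn (by omega), norm_w, ?_⟩
  intro x hx
  by_cases hxl : Low x
  · exact bound_low hC hC0 (by omega) x hx hxl
  · by_cases hx2 : 2 * x.val = 2 * m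
    · rw [acf_Rv, acf_U_half hx2, acf_Ut_half hx2, acf_w_half hn hx hx2]
      simp only [star_zero, add_zero, norm_zero]
      linarith
    · have h1 := bound_low hC hC0 (by omega : 3 ≤ m) (-x) (neg_ne_zero.mpr hx)
        ((low_neg' hx hx2).mpr hxl)
      rw [acf_neg', acf_neg', acf_neg', ← star_add, ← star_add, norm_star] at h1
      exact h1

end Pool.Agent.H89.U4C
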