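import Pool.Agent.H89.U4.Sq

/-!
# Project U4, EXPE: the autocorrelation of a perturbed chirp, even `n`
-/

namespace Pool.Agent.H89.U4

open Pool.Agent.H26.U

/-- EXPE -/
theorem EXPE : S_EXPE := by
  intro n _ hn c hc ψ x hx
  have hne : dn n c * x ≠ 0 := by
    intro h
    exact hx (((dn_isUnit hc).mul_right_eq_zero).mp h)
  have e1 : ∀ y : ZMod n, ez (c * sq y) * Complex.exp (Complex.I * ψ y) *
      star (ez (c * sq (y - x)) * Complex.exp (Complex.I * ψ (y - x))) =
      ez (dn n c * x * y) * ez (-(c * sq x)) *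
        Complex.exp (Complex.I * ((ψ y - ψ (y - x) : ℝ) : ℂ)) := by
    intro y
    have a2 : star (Complex.exp (Complex.I * ψ (y - x))) =
        Complex.exp (-(Complex.I * ψ (y - x))) := by
      rw [Complex.star_def, ← Complex.exp_conj]
      congr 1
      rw [map_mul, Complex.conj_I, Complex.conj_ofReal]
      ring
    have a3 : Complex.exp (Complex.I * ((ψ y - ψ (y - x) : ℝ) : ℂ)) =
        Complex.exp (Complex.I * ψ y) * Complex.exp (-(Complex.I * ψ (y - x))) := by
      rw [← Complex.exp_add]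
      congr 1
      push_cast
      ring
    rw [star_mul', a2, a3, ez_sq_sub hn c x y]
    have h := ez_mul_star (c * sq (y - x))
    linear_combination (ez (dn n c * x * y) * ez (-(c * sq x)) *
      Complex.exp (Complex.I * ψ y) * Complex.exp (-(Complex.I * ψ (y - x)))) * h
  have s0 : ∑ y : ZMod n, ez (dn n c * x * y) = 0 := by
    rw [sum_ez_mul, if_neg hne]
  have hxx : ez (dn n c * x * x) = ez (c * sq x) * ez (c * sq x) := by
    rw [show dn n c * x * x = dn n (c * sq x) by rw [map_mul, dn_sq hn]; ring, ← ez_two_mul,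
      show (2 : ZMod (2 * n)) * (c * sq x) = c * sq x + c * sq x by ring, ez_add]
  have s1 : ∑ y : ZMod n, (ψ (y - x) : ℂ) * ez (dn n c * x * y) =
      ez (c * sq x) * ez (c * sq x) * ∑ y : ZMod n, (ψ y : ℂ) * ez (dn n c * x * y) := by
    rw [← Equiv.sum_comp (Equiv.addRight x), Finset.mul_sum]
    refine Finset.sum_congr rfl fun y _ => ?_
    simp only [Equiv.coe_addRight, add_sub_cancel_right]
    rw [mul_add, ez_add, hxx]
    ring
  rw [acf]
  simp only [e1]
  have e3 : ∀ y : ZMod n, ez (dn n c * x * y) * ez (-(c * sq x)) *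
      Complex.exp (Complex.I * ((ψ y - ψ (y - x) : ℝ) : ℂ)) =
      ez (-(c * sq x)) * ez (dn n c * x * y) +
      Complex.I * ez (-(c * sq x)) * ((ψ y : ℂ) * ez (dn n c * x * y) -
        (ψ (y - x) : ℂ) * ez (dn n c * x * y)) +
      ez (dn n c * x * y) * ez (-(c * sq x)) *
        (Complex.exp (Complex.I * ((ψ y - ψ (y - x) : ℝ) : ℂ))
        - 1 - Complex.I * ((ψ y - ψ (y - x) : ℝ) : ℂ)) := by
    intro y
    push_cast
    ring
  simp only [e3]
  rw [Finset.sum_add_distrib, Finset.sum_add_distrib, ← Finset.mul_sum, s0, mul_zero, zero_add,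
    ← Finset.mul_sum, Finset.sum_sub_distrib, s1]
  congr 1
  have h3 := two_I_sz (c * sq x)
  have h4 : ez (-(c * sq x)) * (ez (c * sq x) * ez (c * sq x)) = ez (c * sq x) := by
    rw [← ez_add, ← ez_add]
    congr 1
    ring
  have h5 : Complex.I * (ez (-(c * sq x)) - ez (c * sq x)) = 2 * (sz (c * sq x) : ℂ) := by
    have : ez (-(c * sq x)) - ez (c * sq x) = -(2 * Complex.I * (sz (c * sq x) : ℂ)) := by
      rw [h3]; ring
    rw [this]
    have hI := Complex.I_mul_I
    linear_combination (-2 * (sz (c * sq x) : ℂ)) * hI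
  rw [← h5]
  linear_combination (-Complex.I * ∑ y : ZMod n, (ψ y : ℂ) * ez (dn n c * x * y)) * h4

end Pool.Agent.H89.U4
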