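import Pool.Agent.H26.U.Ez
import Pool.Agent.H89.U4.Stmts

/-!
# Project U4: the square modulo `2 n`, the reduction `dn` and the half angle sine
-/

namespace Pool.Agent.H89.U4

open Pool.Agent.H26.U

variable {n : ℕ} [NeZero n]

instance neZero_two_mul : NeZero (2 * n) := ⟨by
  have := NeZero.ne n
  omega⟩

lemma dn_natCast (k : ℕ) : dn n (k : ZMod (2 * n)) = (k : ZMod n) := by
  rw [dn, map_natCast]

lemma exists_nat {m : ℕ} [NeZero m] (v : ZMod m) : ∃ k : ℕ, (k : ZMod m) = v :=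
  ⟨v.val, ZMod.natCast_zmod_val v⟩

/-- doubling: `e (2 v / 2 n) = e (v / n)` -/
lemma ez_two_val (v : ZMod n) : ez ((2 * v.val : ℕ) : ZMod (2 * n)) = ez v := by
  rw [ez_natCast, ez]
  congr 1
  have h : (n : ℂ) ≠ 0 := by exact_mod_cast NeZero.ne n
  push_cast
  field_simp

lemma ez_two_natCast (k : ℕ) : ez ((2 * k : ℕ) : ZMod (2 * n)) = ez (k : ZMod n) := by
  rw [ez_natCast, ez_natCast]
  congr 1
  have h : (n : ℂ) ≠ 0 := by exact_mod_cast NeZero.ne n
  push_cast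
  field_simp

lemma ez_mul_two_natCast (c : ZMod (2 * n)) (k : ℕ) :
    ez (c * ((2 * k : ℕ) : ZMod (2 * n))) = ez (dn n c * (k : ZMod n)) := by
  obtain ⟨a, rfl⟩ := exists_nat c
  rw [dn_natCast, ← Nat.cast_mul, ← Nat.cast_mul, show a * (2 * k) = 2 * (a * k) by ring,
    ez_two_natCast]

/-- `e (2 v / 2n) = e (dn v / n)` -/
lemma ez_two_mul (v : ZMod (2 * n)) : ez (2 * v) = ez (dn n v) := by
  obtain ⟨a, rfl⟩ := exists_nat v
  rw [dn_natCast, ← ez_two_natCast]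
  congr 1
  push_cast
  ring

lemma sq_natCast (hn : Even n) (k : ℕ) : sq (k : ZMod n) = (k : ZMod (2 * n)) ^ 2 := by
  obtain ⟨l, hl⟩ := hn
  rw [sq, ZMod.val_natCast]
  rw [← Nat.cast_pow, ← Nat.cast_pow, ZMod.natCast_eq_natCast_iff]
  have h := Nat.mod_add_div k n
  obtain ⟨r, hr⟩ : ∃ r, r = k % n := ⟨_, rfl⟩
  obtain ⟨q, hq⟩ : ∃ q, q = k / n := ⟨_, rfl⟩
  rw [← hr, ← hq] at h
  rw [← hr, ← h]
  have e : (r + n * q) ^ 2 = r ^ 2 + 2 * n * (r * q + l * q ^ 2) := by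
    have : n * n = 2 * n * l := by rw [hl]; ring
    calc (r + n * q) ^ 2 = r ^ 2 + 2 * n * (r * q) + (n * n) * q ^ 2 := by ring
      _ = _ := by rw [this]; ring
  rw [e]
  unfold Nat.ModEq
  rw [Nat.add_mul_mod_self_left]

lemma sq_zero' : sq (0 : ZMod n) = 0 := by
  rw [sq, ZMod.val_zero]
  simp

lemma sq_add (hn : Even n) (a b : ℕ) : sq ((a : ZMod n) + (b : ZMod n)) =
    sq (a : ZMod n) + sq (b : ZMod n) + ((2 * (a * b) : ℕ) : ZMod (2 * n)) := by
  rw [← Nat.cast_add, sq_natCast hn, sq_natCast hn, sq_natCast hn]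
  push_cast
  ring

/-- `e (c y²) conj e (c (y-x)²)` in the form in which it is used -/
lemma ez_sq_sub (hn : Even n) (c : ZMod (2 * n)) (x y : ZMod n) :
    ez (c * sq y) = ez (c * sq (y - x)) * (ez (dn n c * x * y) * ez (-(c * sq x))) := by
  obtain ⟨a, rfl⟩ := exists_nat x
  obtain ⟨b, hb⟩ := exists_nat (y - (a : ZMod n))
  have hy : y = (b : ZMod n) + (a : ZMod n) := by rw [hb]; ring
  rw [← hb, hy, sq_add hn, mul_add, mul_add, ez_add, ez_add, ez_mul_two_natCast, ez_neg]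
  have h1 : ez (dn n c * (a : ZMod n) * ((b : ZMod n) + (a : ZMod n))) =
      ez (dn n c * ((b * a : ℕ) : ZMod n)) * ez (c * ((2 * (a * a) : ℕ) : ZMod (2 * n))) := by
    rw [ez_mul_two_natCast, ← ez_add]
    congr 1
    push_cast
    ring
  have h2 : c * ((2 * (a * a) : ℕ) : ZMod (2 * n)) = c * sq (a : ZMod n) + c * sq (a : ZMod n) := by
    rw [sq_natCast hn]
    push_cast
    ring
  rw [h1, h2, ez_add]
  have h3 := ez_mul_star (c * sq (a : ZMod n))
  linear_combination (-(ez (c * sq (b : ZMod n)) * ez (dn n c * ((b * a : ℕ) : ZMod n)) *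
    ez (c * sq (a : ZMod n)))) * h3

lemma sq_neg (hn : Even n) (x : ZMod n) : sq (-x) = sq x := by
  obtain ⟨a, rfl⟩ := exists_nat x
  have h1 : -(a : ZMod n) = ((a * (n - 1) : ℕ) : ZMod n) := by
    have hn1 : 1 ≤ n := Nat.pos_of_ne_zero (NeZero.ne n)
    rw [Nat.cast_mul, Nat.cast_sub hn1, ZMod.natCast_self]
    push_cast
    ring
  obtain ⟨l, hl⟩ := hn
  rw [h1, sq_natCast ⟨l, hl⟩, sq_natCast ⟨l, hl⟩]
  have hn1 : 1 ≤ n := Nat.pos_of_ne_zero (NeZero.ne n)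
  have h2 : (((n - 1 : ℕ) : ZMod (2 * n))) ^ 2 = 1 := by
    rw [Nat.cast_sub hn1]
    have h3 : ((n : ZMod (2 * n))) ^ 2 = 0 := by
      rw [← Nat.cast_pow, ZMod.natCast_eq_zero_iff]
      exact ⟨l, by rw [hl]; ring⟩
    have h4 : (2 : ZMod (2 * n)) * (n : ZMod (2 * n)) = 0 := by
      have : ((2 * n : ℕ) : ZMod (2 * n)) = 0 := ZMod.natCast_self _
      push_cast at this
      exact this
    push_cast
    linear_combination h3 - h4
  rw [Nat.cast_mul, mul_pow, h2, mul_one]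

lemma dn_sq (hn : Even n) (x : ZMod n) : dn n (sq x) = x ^ 2 := by
  obtain ⟨a, rfl⟩ := exists_nat x
  rw [sq_natCast hn, map_pow, dn_natCast]

lemma dn_isUnit {c : ZMod (2 * n)} (h : IsUnit c) : IsUnit (dn n c) := h.map (dn n)

/-- every unit of `ZMod n` lifts -/
lemma exists_unit_lift (u : (ZMod n)ˣ) : ∃ c : (ZMod (2 * n))ˣ, dn n (c : ZMod (2 * n)) = u := by
  obtain ⟨c, hc⟩ := ZMod.unitsMap_surjective (dvd_mul_left n 2) u
  refine ⟨c, ?_⟩
  rw [← hc]
  rfl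

/-! ### the half angle sine -/

lemma hz_sq (v : ZMod n) : 1 - 2 * hz v ^ 2 = (ez v).re := by
  rw [ez_exp_real, Complex.exp_ofReal_mul_I_re, hz,
    show 2 * Real.pi * ((v.val : ℝ) / n) = 2 * (Real.pi * ((v.val : ℝ) / n)) by ring,
    Real.cos_two_mul]
  have := Real.sin_sq_add_cos_sq (Real.pi * ((v.val : ℝ) / n))
  linarith

lemma hz_sq_natCast (k : ℕ) : hz (k : ZMod n) ^ 2 = Real.sin (Real.pi * ((k : ℝ) / n)) ^ 2 := by
  have h1 := hz_sq (k : ZMod n)
  have h2 : (ez (k : ZMod n)).re = Real.cos (2 * (Real.pi * ((k : ℝ) / n))) := by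
    rw [ez_natCast]
    have : (2 * Real.pi * Complex.I * ((k : ℂ) / n)) =
        ((2 * (Real.pi * ((k : ℝ) / n)) : ℝ) : ℂ) * Complex.I := by
      push_cast
      ring
    rw [this, Complex.exp_ofReal_mul_I_re]
  rw [h2, Real.cos_two_mul] at h1
  have := Real.sin_sq_add_cos_sq (Real.pi * ((k : ℝ) / n))
  linarith

lemma abs_hz_natCast (k : ℕ) : |hz (k : ZMod n)| = |Real.sin (Real.pi * ((k : ℝ) / n))| := by
  have := hz_sq_natCast (n := n) k
  exact (sq_eq_sq_iff_abs_eq_abs _ _).1 this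

lemma sz_sq (v : ZMod (2 * n)) : sz v ^ 2 = hz (dn n v) ^ 2 := by
  obtain ⟨a, rfl⟩ := exists_nat v
  rw [dn_natCast, hz_sq_natCast, sz_natCast]
  have h : (n : ℝ) ≠ 0 := by exact_mod_cast NeZero.ne n
  congr 2
  push_cast
  field_simp

lemma sz_sq_sq (hn : Even n) (c : ZMod (2 * n)) (x : ZMod n) :
    sz (c * sq x) ^ 2 = hz (dn n c * x ^ 2) ^ 2 := by
  rw [sz_sq, map_mul, dn_sq hn]

lemma hz_eq_zero_iff (v : ZMod n) : hz v = 0 ↔ v = 0 := by
  have hn : (0 : ℝ) < n := by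
    exact_mod_cast Nat.pos_of_ne_zero (NeZero.ne n)
  constructor
  · intro h
    by_contra hv
    have h1 : 0 < v.val := Nat.pos_of_ne_zero fun h0 => hv ((ZMod.val_eq_zero v).1 h0)
    have h2 : v.val < n := ZMod.val_lt v
    have h3 : (0 : ℝ) < v.val := by exact_mod_cast h1
    have h4 : (v.val : ℝ) < n := by exact_mod_cast h2
    have h5 : 0 < hz v := by
      apply Real.sin_pos_of_pos_of_lt_pi
      · have := Real.pi_pos
        positivity
      · have h6 : (v.val : ℝ) / n < 1 := by rw [div_lt_one hn]; exact h4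
        have := Real.pi_pos
        nlinarith
    exact h5.ne' h
  · rintro rfl
    rw [hz, ZMod.val_zero]
    simp

lemma sz_sq_zero (hn : Even n) (c : ZMod (2 * n)) {x : ZMod n} (hx : x ^ 2 = 0) :
    sz (c * sq x) = 0 := by
  have h := sz_sq_sq hn c x
  rw [hx, mul_zero, (hz_eq_zero_iff (0 : ZMod n)).2 rfl] at h
  simpa using h

/-- for `x² = 0` the value `e (x² / 2n)` is a sign -/
lemma ez_sq_sign (hn : Even n) {x : ZMod n} (hx : x ^ 2 = 0) :
    ∃ s : ℝ, s ^ 2 = 1 ∧ ez (sq x) = (s : ℂ) ∧ ez (-(sq x)) = (s : ℂ) := by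
  have h0 := sz_sq_zero hn 1 hx
  rw [one_mul] at h0
  have h1 := norm_ez (sq x)
  have h2 : (ez (sq x)).im = 0 := by rw [← sz_eq_im, h0]
  have h3 : ez (sq x) = (((ez (sq x)).re : ℝ) : ℂ) := by
    apply Complex.ext
    · simp
    · simp [h2]
  refine ⟨(ez (sq x)).re, ?_, h3, ?_⟩
  · have h4 : ‖ez (sq x)‖ ^ 2 = 1 := by rw [h1]; norm_num
    rw [← Complex.normSq_eq_norm_sq, Complex.normSq_apply, h2] at h4
    linarith
  · rw [ez_neg, h3, Complex.star_def, Complex.conj_ofReal]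
    simp

end Pool.Agent.H89.U4
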