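import Pool.Agent.H20.U.FAM
import Pool.Agent.H89.U4.Sq

/-!
# Project U4, FAME: the amplitude modulated family, even `n`
-/

namespace Pool.Agent.H89.U4

open Pool.Agent.H26.U Pool.Agent.H15.U Pool.Agent.H20.U Finset

/-- the chirp factor -/
noncomputable def chx {n : ℕ} (x y : ZMod n) : ℂ := ez (x * y) * ez (-(sq x))

lemma norm_chx {n : ℕ} [NeZero n] (x y : ZMod n) : ‖chx x y‖ = 1 := by
  rw [chx, norm_mul, Pool.Agent.H26.U.norm_ez, Pool.Agent.H26.U.norm_ez, one_mul]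

lemma ez_sq_star {n : ℕ} [NeZero n] (hn : Even n) (x y : ZMod n) :
    ez (sq y) * star (ez (sq (y - x))) = chx x y := by
  have h := ez_sq_sub hn 1 x y
  simp only [one_mul, map_one] at h
  rw [h, chx]
  have h2 := ez_mul_star (sq (y - x))
  linear_combination (ez (x * y) * ez (-(sq x))) * h2

theorem acf_fame {n : ℕ} [NeZero n] (hn : Even n) (κ : ZMod n → ℝ) (m x : ZMod n) :
    ∑ i, acf (fame κ m i) x = ∑ y, chx x y *
      (c6 (wf (ez (m * y)) (ez (m * (y - x))) (κ y) (κ (y - x))) : ℂ) := by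
  simp only [acf]
  rw [Finset.sum_comm]
  apply Finset.sum_congr rfl
  intro y _
  rw [← sum_e6, Finset.mul_sum]
  apply Finset.sum_congr rfl
  intro i _
  simp only [fame]
  have hst : ∀ t : ℝ, star (Complex.exp (Complex.I * (t : ℂ))) =
      Complex.exp (Complex.I * ((-t : ℝ) : ℂ)) := by
    intro t
    rw [Complex.star_def, ← Complex.exp_conj, map_mul, Complex.conj_I, Complex.conj_ofReal]
    congr 1
    push_cast
    ring
  have h1 : (wf (ez (m * y)) (ez (m * (y - x))) (κ y) (κ (y - x)) * e6 i).re =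
      κ y * (ez (m * y) * e6 i).re + -(κ (y - x) * (ez (m * (y - x)) * e6 i).re) := by
    have : wf (ez (m * y)) (ez (m * (y - x))) (κ y) (κ (y - x)) * e6 i =
        (κ y : ℂ) * (ez (m * y) * e6 i) - (κ (y - x) : ℂ) * (ez (m * (y - x)) * e6 i) := by
      rw [wf]
      ring
    rw [this, Complex.sub_re, Complex.re_ofReal_mul, Complex.re_ofReal_mul]
    ring
  rw [star_mul, hst, h1, ← ez_sq_star hn, Complex.ofReal_add, mul_add, Complex.exp_add]
  ring

theorem lin_parte {n : ℕ} [NeZero n] (hn : Even n) (ρ : ZMod n → ℝ) (x : ZMod n) :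
    ∑ y, chx x y * ((ρ y + ρ (y - x) : ℝ) : ℂ) =
      (ez (sq x) + ez (-(sq x))) * ∑ y, (ρ y : ℂ) * ez (x * y) := by
  have h1 : ∑ y, chx x y * ((ρ y + ρ (y - x) : ℝ) : ℂ) =
      ∑ y, chx x y * (ρ y : ℂ) + ∑ y, chx x y * (ρ (y - x) : ℂ) := by
    rw [← Finset.sum_add_distrib]
    apply Finset.sum_congr rfl
    intro y _
    push_cast
    ring
  have h2 : ∑ y, chx x y * (ρ (y - x) : ℂ) = ∑ y, chx x (y + x) * (ρ y : ℂ) := by
    have := Equiv.sum_comp (Equiv.addRight x) (fun y : ZMod n => chx x y * (ρ (y - x) : ℂ))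
    rw [← this]
    apply Finset.sum_congr rfl
    intro y _
    simp
  have hxx : ez (x * x) = ez (sq x) * ez (sq x) := by
    rw [show x * x = dn n (sq x) by rw [dn_sq hn]; ring, ← ez_two_mul,
      show (2 : ZMod (2 * n)) * sq x = sq x + sq x by ring, ez_add]
  have h4 : ez (-(sq x)) * (ez (sq x) * ez (sq x)) = ez (sq x) := by
    rw [← ez_add, ← ez_add]
    congr 1
    ring
  rw [h1, h2, add_mul, Finset.mul_sum, Finset.mul_sum, add_comm]
  congr 1
  · apply Finset.sum_congr rfl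
    intro y _
    rw [chx, mul_add, ez_add, hxx]
    linear_combination (ρ y : ℂ) * ez (x * y) * h4
  · apply Finset.sum_congr rfl
    intro y _
    rw [chx]
    ring

theorem fameT_eq {n : ℕ} [NeZero n] (hn : Even n) (lam : ℝ) (m : ZMod n) (ρ : ZMod n → ℝ)
    (x : ZMod n) :
    fameT lam m ρ x = ∑ y, chx x y *
      ((c6 (wf (ez (m * y)) (ez (m * (y - x))) (lam + ρ y) (lam + ρ (y - x))) +
        6 * lam * hz (m * x) ^ 2 * (ρ y + ρ (y - x)) : ℝ) : ℂ) := by
  rw [fameT, acf_fame hn]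
  have h := lin_parte hn ρ x
  have h2 : 6 * lam * (hz (m * x) : ℂ) ^ 2 * (ez (sq x) + ez (-(sq x))) *
      ∑ y, (ρ y : ℂ) * ez (x * y) =
      ∑ y, chx x y * ((6 * lam * hz (m * x) ^ 2 * (ρ y + ρ (y - x)) : ℝ) : ℂ) := by
    rw [mul_assoc _ (ez (sq x) + ez (-(sq x))), ← h, Finset.mul_sum]
    apply Finset.sum_congr rfl
    intro y _
    push_cast
    ring
  rw [h2, ← Finset.sum_add_distrib]
  apply Finset.sum_congr rfl
  intro y _
  push_cast
  ring

theorem sum_chirpe {n : ℕ} [NeZero n] (x : ZMod n) (hx : x ≠ 0) :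
    ∑ y, chx x y = 0 := by
  unfold chx
  rw [← Finset.sum_mul, sum_ez_mul, if_neg hx, zero_mul]

theorem re_uue {n : ℕ} [NeZero n] (m x y : ZMod n) :
    (ez (m * y) * star (ez (m * (y - x)))).re = 1 - 2 * hz (m * x) ^ 2 := by
  rw [← ez_sub, hz_sq]
  congr 2
  ring

/-- FAME -/
theorem FAME : S_FAME := by
  intro n _ hn m x hx lam hl hl1
  have hn0 : (0 : ℝ) < n := by exact_mod_cast Nat.pos_of_ne_zero (NeZero.ne n)
  constructor
  · rw [fameT_eq hn]
    have h0 := sum_chirpe x hx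
    obtain ⟨K, hK⟩ : ∃ K : ℝ, K = 6 - 6 * lam ^ 2 * hz (m * x) ^ 2 +
      3 / 2 * lam ^ 4 * hz (m * x) ^ 4 := ⟨_, rfl⟩
    have h1 : ∑ y, chx x y *
        ((c6 (wf (ez (m * y)) (ez (m * (y - x))) (lam + 0) (lam + 0)) +
          6 * lam * hz (m * x) ^ 2 * (0 + 0) : ℝ) : ℂ) =
        ∑ y, chx x y *
        ((c6 (wf (ez (m * y)) (ez (m * (y - x))) lam lam) - K : ℝ) : ℂ) := by
      have h2 : ∑ y, chx x y *
          ((c6 (wf (ez (m * y)) (ez (m * (y - x))) lam lam) - K : ℝ) : ℂ) =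
          ∑ y, chx x y *
          ((c6 (wf (ez (m * y)) (ez (m * (y - x))) lam lam) : ℝ) : ℂ) -
          (∑ y, chx x y) * (K : ℂ) := by
        rw [Finset.sum_mul, ← Finset.sum_sub_distrib]
        apply Finset.sum_congr rfl
        intro y _
        push_cast
        ring
      rw [h2, h0, zero_mul, sub_zero]
      apply Finset.sum_congr rfl
      intro y _
      simp only [add_zero, mul_zero]
    rw [h1]
    refine (norm_sum_le _ _).trans ?_
    calc ∑ y, ‖chx x y *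
          ((c6 (wf (ez (m * y)) (ez (m * (y - x))) lam lam) - K : ℝ) : ℂ)‖
        ≤ ∑ _y : ZMod n, lam ^ 6 := by
          apply Finset.sum_le_sum
          intro y _
          rw [norm_mul, norm_chx, one_mul, Complex.norm_real, Real.norm_eq_abs, hK]
          exact pt_static _ _ (Pool.Agent.H26.U.norm_ez _) (Pool.Agent.H26.U.norm_ez _) _
            (re_uue m x y) lam hl hl1
      _ = n * lam ^ 6 := by
          rw [Finset.sum_const, Finset.card_univ, ZMod.card, nsmul_eq_mul]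
  · intro ρ ρ' hρ hρ'
    rw [fameT_eq hn, fameT_eq hn, ← Finset.sum_sub_distrib]
    refine (norm_sum_le _ _).trans ?_
    obtain ⟨δ, hδ⟩ : ∃ δ : ZMod n → ℝ, δ = fun y => ρ y - ρ' y := ⟨_, rfl⟩
    have hpt : ∀ y, ‖chx x y *
        ((c6 (wf (ez (m * y)) (ez (m * (y - x))) (lam + ρ y) (lam + ρ (y - x))) +
          6 * lam * hz (m * x) ^ 2 * (ρ y + ρ (y - x)) : ℝ) : ℂ) -
        chx x y *
        ((c6 (wf (ez (m * y)) (ez (m * (y - x))) (lam + ρ' y) (lam + ρ' (y - x))) +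
          6 * lam * hz (m * x) ^ 2 * (ρ' y + ρ' (y - x)) : ℝ) : ℂ)‖ ≤
        16 * lam ^ 3 * ((|δ y| + |δ (y - x)|) * (|(1 : ℝ)| + |(1 : ℝ)|)) +
        18 * ((|δ y| + |δ (y - x)|) * (|ρ y| + |ρ (y - x)|)) +
        18 * ((|δ y| + |δ (y - x)|) * (|ρ' y| + |ρ' (y - x)|)) := by
      intro y
      rw [← mul_sub, norm_mul, norm_chx, one_mul, ← Complex.ofReal_sub, Complex.norm_real,
        Real.norm_eq_abs]
      have h := pt_lip (ez (m * y)) (ez (m * (y - x))) (Pool.Agent.H26.U.norm_ez _)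
        (Pool.Agent.H26.U.norm_ez _)
        (hz (m * x)) (re_uue m x y) lam (ρ y) (ρ (y - x)) (ρ' y) (ρ' (y - x)) hl
        (hρ y) (hρ (y - x)) (hρ' y) (hρ' (y - x))
      have e1 : c6 (wf (ez (m * y)) (ez (m * (y - x))) (lam + ρ y) (lam + ρ (y - x))) +
          6 * lam * hz (m * x) ^ 2 * (ρ y + ρ (y - x)) -
          (c6 (wf (ez (m * y)) (ez (m * (y - x))) (lam + ρ' y) (lam + ρ' (y - x))) +
          6 * lam * hz (m * x) ^ 2 * (ρ' y + ρ' (y - x))) =
          c6 (wf (ez (m * y)) (ez (m * (y - x))) (lam + ρ y) (lam + ρ (y - x))) -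
          c6 (wf (ez (m * y)) (ez (m * (y - x))) (lam + ρ' y) (lam + ρ' (y - x))) +
          6 * lam * hz (m * x) ^ 2 * ((ρ y - ρ' y) + (ρ (y - x) - ρ' (y - x))) := by ring
      rw [e1]
      refine h.trans (le_of_eq ?_)
      rw [hδ, abs_one]
      ring
    refine (Finset.sum_le_sum fun y _ => hpt y).trans ?_
    rw [Finset.sum_add_distrib, Finset.sum_add_distrib, ← Finset.mul_sum, ← Finset.mul_sum,
      ← Finset.mul_sum]
    have c1 := cs4 δ (fun _ => (1 : ℝ)) x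
    have c2 := cs4 δ ρ x
    have c3 := cs4 δ ρ' x
    rw [nr_one] at c1
    have hδ' : nr (fun y => ρ y - ρ' y) = nr δ := by rw [hδ]
    rw [hδ']
    have d0 := Pool.Agent.H20.U.nr_nonneg δ
    have d1 := Pool.Agent.H20.U.nr_nonneg ρ
    have d2 := Pool.Agent.H20.U.nr_nonneg ρ'
    have d3 : 0 ≤ √(n : ℝ) := Real.sqrt_nonneg _
    have l3 : 0 ≤ lam ^ 3 := by positivity
    have m1 := mul_le_mul_of_nonneg_left c1 (by positivity : 0 ≤ 16 * lam ^ 3)
    have p1 := mul_nonneg d0 d1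
    have p2 := mul_nonneg d0 d2
    have p3 := mul_nonneg (mul_nonneg l3 d3) d0
    nlinarith

end Pool.Agent.H89.U4
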