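import Pool.Agent.H89.U4.FIXEA

/-!
# Project U4, FIXE: the map and its Lipschitz bound (even `n`, after FIX2B of helper15)
-/

namespace Pool.Agent.H89.U4

open Pool.Agent.H26.U Pool.Agent.H15.U Finset

set_option linter.unusedSectionVars false

variable {n : ℕ} [NeZero n]

lemma norm_chfE (c : ZMod (2 * n)) (x y : ZMod n) : ‖chfe c x y‖ = 1 := by
  rw [chfe, norm_mul, Pool.Agent.H26.U.norm_ez, Pool.Agent.H26.U.norm_ez, one_mul]

lemma PP_zeroE (hF : S_FAME) (hn : Even n) (c : Fin 4 → ZMod (2 * n)) {B : ℝ} {μ : ℕ} (hμ : 2 ≤ μ)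
    (hμ1 : n ≤ μ ^ 48) {r0 : ZMod n → ℂ} {R0 : ℝ} (hR0 : 0 ≤ R0)
    (hr0 : ∀ x, x ≠ 0 → ‖r0 x‖ ≤ R0) (x : ZMod n) :
    ‖PPe c B μ (1 / (μ : ℝ) ^ 8) r0 (fun _ => 0) x‖ ≤ R0 + 24 := by
  have hm : (0 : ℝ) < μ := by exact_mod_cast (by omega : 0 < μ)
  have hm1 : (1 : ℝ) ≤ μ := by exact_mod_cast (by omega : 1 ≤ μ)
  by_cases hx : x = 0
  · rw [PPe, if_pos hx, norm_zero]
    linarith
  rw [PPe, if_neg hx]
  have h1 : ∀ j, qpart (chfe (c j) x) (psie c B (fun _ => 0) j) x = 0 := by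
    intro j
    rw [psi_zeroE]
    simp [qpart]
  have h2 : ∑ j, qpart (chfe (c j) x) (psie c B (fun _ => 0) j) x = 0 :=
    sum_eq_zero fun j _ => h1 j
  rw [h2, mul_zero, add_zero, rho_zeroE]
  refine le_trans (norm_add_le _ _) (add_le_add (hr0 x hx) ?_)
  refine le_trans (norm_sum_le _ _) ?_
  have hl1 : (1 : ℝ) / (μ : ℝ) ^ 8 ≤ 1 := by
    rw [div_le_one (by positivity)]
    exact one_le_pow₀ hm1
  have h3 : ∀ l ∈ range 24,
      ‖fameT (1 / (μ : ℝ) ^ 8) (((μ ^ l : ℕ) : ZMod n)) (fun _ => 0) x‖ ≤ 1 := by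
    intro l _
    refine le_trans (hF n hn _ x hx _ (by positivity) hl1).1 ?_
    have : (n : ℝ) ≤ (μ : ℝ) ^ 48 := by exact_mod_cast hμ1
    rw [div_pow, one_pow, ← pow_mul, mul_one_div, div_le_one (by positivity)]
    exact this
  refine le_trans (sum_le_sum h3) ?_
  simp

lemma PP_lipE (hP : S_PVE) (hQ : S_QL) (hL : S_LEVE) (hF : S_FAME) (hn : Even n) (c : Fin 4 → ZMod (2 * n))
    (hc : ∀ j, IsUnit (c j)) {B : ℝ} (hB : 0 < B) {μ : ℕ} (hμ : 2 ≤ μ)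
    (hμ1 : n ≤ μ ^ 48) (hμ2 : μ ^ 48 ≤ 2 ^ 48 * n)
    (hD : ∀ x : ZMod n, x ^ 2 ≠ 0 → 0 < DDe c x) (r0 : ZMod n → ℂ) {A R e : ℝ}
    (he : e = 2 ^ 24 / (μ : ℝ) ^ 2) (he1 : e * (2 * A * R) ≤ 1)
    (r r' : ZMod n → ℂ) (hr : nw (ome c μ) r ≤ 2 * A * R) (hr' : nw (ome c μ) r' ≤ 2 * A * R)
    (x : ZMod n) :
    ‖PPe c B μ (1 / (μ : ℝ) ^ 8) r0 r x - PPe c B μ (1 / (μ : ℝ) ^ 8) r0 r' x‖ ≤
      ((4 / B + 4800 * e ^ 2) * (nw (ome c μ) r + nw (ome c μ) r') + 4800 * e) *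
        nw (ome c μ) (fun x => r x - r' x) := by
  have hm : (0 : ℝ) < μ := by exact_mod_cast (by omega : 0 < μ)
  have hm1 : (1 : ℝ) ≤ μ := by exact_mod_cast (by omega : 1 ≤ μ)
  have he0 : 0 ≤ e := by rw [he]; positivity
  obtain ⟨a, ha⟩ : ∃ a, a = nw (ome c μ) r := ⟨_, rfl⟩
  obtain ⟨a', ha'⟩ : ∃ a, a = nw (ome c μ) r' := ⟨_, rfl⟩
  obtain ⟨d, hd⟩ : ∃ a, a = nw (ome c μ) (fun x => r x - r' x) := ⟨_, rfl⟩
  have ha0 : 0 ≤ a := by rw [ha]; exact Real.sqrt_nonneg _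
  have ha'0 : 0 ≤ a' := by rw [ha']; exact Real.sqrt_nonneg _
  have hd0 : 0 ≤ d := by rw [hd]; exact Real.sqrt_nonneg _
  rw [← ha, ← ha', ← hd]
  rw [← ha] at hr
  rw [← ha'] at hr'
  by_cases hx : x = 0
  · rw [PPe, if_pos hx, PPe, if_pos hx, sub_zero, norm_zero]
    positivity
  obtain ⟨lam, hlam⟩ : ∃ lam, lam = 1 / (μ : ℝ) ^ 8 := ⟨_, rfl⟩
  have hl0 : 0 ≤ lam := by rw [hlam]; positivity
  have hl1 : lam ≤ 1 := by
    rw [hlam, div_le_one (by positivity)]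
    exact one_le_pow₀ hm1
  have hl3 : lam ^ 3 * √n ≤ 1 := by
    have h1 : √(n : ℝ) ≤ (μ : ℝ) ^ 24 := by
      rw [Real.sqrt_le_left (by positivity), ← pow_mul]
      exact_mod_cast hμ1
    rw [hlam, div_pow, one_pow, ← pow_mul, one_div_mul_eq_div, div_le_one (by positivity)]
    exact h1
  rw [← hlam]
  have hρ : nr (rhoe μ lam r) ≤ e * a := by
    rw [he, ha, hlam]
    exact rho_bdE hP hL hn c hμ hμ1 hμ2 hD r
  have hρ' : nr (rhoe μ lam r') ≤ e * a' := by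
    rw [he, ha', hlam]
    exact rho_bdE hP hL hn c hμ hμ1 hμ2 hD r'
  have hρd : nr (fun y => rhoe μ lam r y - rhoe μ lam r' y) ≤ e * d := by
    simp only [rho_subE]
    rw [he, hd, hlam]
    exact rho_bdE hP hL hn c hμ hμ1 hμ2 hD _
  have hρ1 : ∀ y, |rhoe μ lam r y| ≤ 1 := fun y =>
    le_trans (abs_le_nr _ y) (le_trans hρ (le_trans (mul_le_mul_of_nonneg_left hr he0) he1))
  have hρ'1 : ∀ y, |rhoe μ lam r' y| ≤ 1 := fun y =>
    le_trans (abs_le_nr _ y) (le_trans hρ' (le_trans (mul_le_mul_of_nonneg_left hr' he0) he1))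
  have hfam : ∀ l ∈ range 24, ‖fameT lam (((μ ^ l : ℕ) : ZMod n)) (rhoe μ lam r) x -
      fameT lam (((μ ^ l : ℕ) : ZMod n)) (rhoe μ lam r') x‖ ≤ 200 * (e * a + e * a' + 1) * (e * d) := by
    intro l _
    refine le_trans ((hF n hn _ x hx lam hl0 hl1).2 _ _ hρ1 hρ'1) ?_
    apply mul_le_mul _ hρd (nr_nonneg _) (by positivity)
    linarith
  have hq : ∀ j ∈ (univ : Finset (Fin 4)), ‖qpart (chfe (c j) x) (psie c B r j) x -
      qpart (chfe (c j) x) (psie c B r' j) x‖ ≤ 4 * (a / (2 * B) + a' / (2 * B)) * (d / (2 * B)) := by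
    intro j _
    refine le_trans (hQ n _ (norm_chfE (c j) x) _ _ x) ?_
    have h1 : nr (psie c B r j) ≤ a / (2 * B) := by
      rw [ha]; exact psi_bdE hP hn c hc hμ hD hB r j
    have h2 : nr (psie c B r' j) ≤ a' / (2 * B) := by
      rw [ha']; exact psi_bdE hP hn c hc hμ hD hB r' j
    have h3 : nr (fun y => psie c B r j y - psie c B r' j y) ≤ d / (2 * B) := by
      simp only [psi_subE]
      rw [hd]
      exact psi_bdE hP hn c hc hμ hD hB _ j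
    apply mul_le_mul _ h3 (nr_nonneg _) (by positivity)
    linarith
  rw [PPe, if_neg hx, PPe, if_neg hx]
  have e1 : r0 x + B * ∑ j, qpart (chfe (c j) x) (psie c B r j) x +
        ∑ l ∈ range 24, fameT lam (((μ ^ l : ℕ) : ZMod n)) (rhoe μ lam r) x -
      (r0 x + B * ∑ j, qpart (chfe (c j) x) (psie c B r' j) x +
        ∑ l ∈ range 24, fameT lam (((μ ^ l : ℕ) : ZMod n)) (rhoe μ lam r') x) =
      B * ∑ j, (qpart (chfe (c j) x) (psie c B r j) x - qpart (chfe (c j) x) (psie c B r' j) x) +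
      ∑ l ∈ range 24, (fameT lam (((μ ^ l : ℕ) : ZMod n)) (rhoe μ lam r) x -
        fameT lam (((μ ^ l : ℕ) : ZMod n)) (rhoe μ lam r') x) := by
    rw [sum_sub_distrib, sum_sub_distrib]
    ring
  rw [e1]
  have h4 := le_trans (norm_sum_le _ _) (sum_le_sum hq)
  have h5 := le_trans (norm_sum_le _ _) (sum_le_sum hfam)
  rw [sum_const, card_univ, Fintype.card_fin, nsmul_eq_mul] at h4
  rw [sum_const, card_range, nsmul_eq_mul] at h5
  refine le_trans (norm_add_le _ _) ?_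
  rw [norm_mul, Complex.norm_real, Real.norm_eq_abs, abs_of_pos hB]
  have h6 := mul_le_mul_of_nonneg_left h4 hB.le
  refine le_trans (add_le_add h6 h5) (le_of_eq ?_)
  push_cast
  field_simp
  ring

lemma om_sumE (hK : S_CK0) (c : Fin 4 → ZMod (2 * n)) {μ : ℕ} (hμ : 2 ≤ μ) (hμ1 : n ≤ μ ^ 48) {A1 : ℝ}
    (hA : 1 / (n : ℝ) * ∑ x ∈ Finset.univ.filter (fun x : ZMod n => x ^ 2 ≠ 0),
      1 / ∑ j, sz (c j * sq x) ^ 2 ≤ A1) : ∑ x, ome c μ x ≤ A1 + 2 := by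
  classical
  have hn0 := nposE (n := n)
  have hn1 : (1 : ℝ) ≤ n := by exact_mod_cast Nat.pos_of_ne_zero (NeZero.ne n)
  have hm : (0 : ℝ) < μ := by exact_mod_cast (by omega : 0 < μ)
  rw [← sum_filter_add_sum_filter_not univ (fun x : ZMod n => x ^ 2 ≠ 0)]
  have h1 : ∑ x ∈ univ.filter (fun x : ZMod n => x ^ 2 ≠ 0), ome c μ x ≤ A1 := by
    refine le_trans (le_of_eq ?_) hA
    rw [mul_sum]
    refine sum_congr rfl fun x hx => ?_
    rw [mem_filter] at hx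
    rw [ome, if_pos hx.2, DDe, one_div_mul_one_div]
  have h2 : ∑ x ∈ univ.filter (fun x : ZMod n => ¬ x ^ 2 ≠ 0), ome c μ x ≤ 2 := by
    have h3 : ∀ x ∈ univ.filter (fun x : ZMod n => ¬ x ^ 2 ≠ 0), ome c μ x ≤
        (if x = 0 then 1 else 0) + 1 / (μ : ℝ) ^ 24 := by
      intro x hx
      rw [mem_filter] at hx
      rw [ome, if_neg hx.2]
      split_ifs with h
      · have : 1 / (n : ℝ) ≤ 1 := by
          rw [div_le_one hn0]
          exact hn1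
        have h' : 0 < 1 / (μ : ℝ) ^ 24 := by positivity
        linarith
      · linarith
    refine le_trans (sum_le_sum h3) ?_
    rw [sum_add_distrib, sum_const, nsmul_eq_mul]
    have h4 : ∑ x ∈ univ.filter (fun x : ZMod n => ¬ x ^ 2 ≠ 0), (if x = 0 then (1 : ℝ) else 0) ≤ 1 := by
      refine le_trans (sum_le_sum_of_subset_of_nonneg (subset_univ _) fun x _ _ => ?_) ?_
      · split_ifs <;> norm_num
      · rw [sum_ite_eq' univ (0 : ZMod n) (fun _ => (1 : ℝ))]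
        simp
    have h5 : ((univ.filter (fun x : ZMod n => ¬ x ^ 2 ≠ 0)).card : ℝ) * (1 / (μ : ℝ) ^ 24) ≤ 1 := by
      have h6 := hK n
      have h7 : (univ.filter (fun x : ZMod n => ¬ x ^ 2 ≠ 0)) =
          univ.filter (fun x : ZMod n => x ^ 2 = 0) := by
        ext x
        simp
      rw [h7, mul_one_div, div_le_one (by positivity)]
      have h8 : ((univ.filter (fun x : ZMod n => x ^ 2 = 0)).card : ℝ) ^ 2 ≤ ((μ : ℝ) ^ 24) ^ 2 := by
        rw [← pow_mul]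
        exact_mod_cast le_trans h6 hμ1
      exact le_of_sq_le_sq h8 (by positivity)
    linarith
  linarith

end Pool.Agent.H89.U4
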