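import Pool.Agent.H89.U4.Stmts

/-!
# Project U4, LIN: the final statement
-/

namespace Pool.Agent.H89.U4

open Pool.Agent.H26.U Pool.Agent.H15.U Pool.Agent.H89.MOD Pool.Agent.H89.U3 Pool.Agent.H37.Etf

/-- LIN -/
theorem LIN (hS : S_SEQE) (hW : S_WFAME) (hM : S_MAINC) : S_LIN := by
  obtain ⟨K, n0, hK⟩ := hW
  obtain ⟨k2, c2, hc2, h2⟩ := hM
  obtain ⟨e, he⟩ : ∃ e : ℕ, K + 2 < 2 ^ e := ⟨K + 2, Nat.lt_two_pow_self⟩
  obtain ⟨p, hp⟩ : ∃ p, p = 2 ^ e - K - 2 := ⟨_, rfl⟩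
  have hτ : K + 1 + p = 2 ^ e - 1 := by omega
  have hτ1 : 1 ≤ 2 ^ e := Nat.one_le_two_pow
  obtain ⟨k1, hk1⟩ : ∃ k1, k1 = 3 * (2 ^ e + 1) + e := ⟨_, rfl⟩
  obtain ⟨N, hN⟩ : ∃ N, N = 2 ^ k1 * (max n0 6) := ⟨_, rfl⟩
  have hNpos : 0 < N := by
    rw [hN]
    have : 6 ≤ max n0 6 := le_max_right _ _
    positivity
  have hNr : (0 : ℝ) < N := by exact_mod_cast hNpos
  refine ⟨max (k1 + 1) k2, 1 / N, by positivity, fun M hM1 hd => ?_⟩
  have hd1 : 2 ^ (k1 + 1) ∣ M := (pow_dvd_pow 2 (le_max_left _ _)).trans hd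
  obtain ⟨r, hr⟩ := hd1
  obtain ⟨n, hn⟩ : ∃ n, n = 2 * r := ⟨_, rfl⟩
  have hMn : M = 2 ^ k1 * n := by
    rw [hr, hn, pow_succ]
    ring
  have hne : Even n := ⟨r, by omega⟩
  have hn1 : 1 ≤ n := by
    rcases Nat.eq_zero_or_pos n with h | h
    · rw [h, mul_zero] at hMn
      omega
    · exact h
  rcases Nat.lt_or_ge n (max n0 6) with hlt | hge
  · -- bounded `M`
    have hMN : M ≤ N := by
      rw [hMn, hN]
      exact Nat.mul_le_mul_left _ hlt.le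
    obtain ⟨a, m, hm, hMa⟩ := Nat.exists_eq_two_pow_mul_odd (n := M) (by omega)
    have ha' : max (k1 + 1) k2 ≤ a := by
      have h3 : 2 ^ max (k1 + 1) k2 ∣ 2 ^ a * m := by
        rw [← hMa]
        exact hd
      have h4 : Nat.Coprime (2 ^ max (k1 + 1) k2) m :=
        Nat.Coprime.pow_left _ (Nat.coprime_two_left.2 hm)
      have h5 := h4.dvd_of_dvd_mul_right h3
      exact (Nat.pow_dvd_pow_iff_le_right (by norm_num)).1 h5
    have ha : k2 ≤ a := le_trans (le_max_right _ _) ha'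
    have ha1 : 1 ≤ a := le_trans (by omega) (le_trans (le_max_left (k1 + 1) k2) ha')
    obtain ⟨d, hd, hF⟩ := h2 a m ha hm
    have hd0 : (0 : ℝ) < d := by
      have h7 : (0 : ℝ) < a := by exact_mod_cast ha1
      have h8 : (0 : ℝ) < m := by exact_mod_cast hm.pos
      exact lt_of_lt_of_le (by positivity) hd
    have hd1 : 1 ≤ d := by
      have : 0 < d := by exact_mod_cast hd0
      omega
    refine ⟨d, ?_, ?_⟩
    · have h6 : (1 : ℝ) / N * M ≤ 1 := by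
        rw [one_div_mul_eq_div, div_le_one hNr]
        exact_mod_cast hMN
      refine le_trans h6 ?_
      exact_mod_cast hd1
    · rw [hMa]
      exact hF
  · have h6 : 6 ≤ n := le_trans (le_max_right _ _) hge
    have h0 : n0 ≤ n := le_trans (le_max_left _ _) hge
    have : NeZero n := ⟨by omega⟩
    obtain ⟨U, R, v, hU, hR, hv, hvi, hv1, hv2⟩ := hK n hne h0 p
    have key : ∀ τ : ℕ, K + 1 + p = τ - 1 → 1 ≤ τ →
        FamEx (8 ^ (τ + 1) * (2 * τ * n)) ((p + 1) * n) := by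
      intro τ hτ hτ1
      obtain ⟨v', hv', hvi', hv1', hv2'⟩ : ∃ v' : (Fin ((p + 1) * n) → ℝ) →
          Fin (τ - 1) → ZMod n → ℂ,
          Continuous v' ∧ Function.Injective v' ∧ (∀ s j y, ‖v' s j y‖ = 1) ∧
          ∀ s x, x ≠ 0 → acf U x + acf R x + ∑ j, acf (v' s j) x = 0 := by
        rw [← hτ]
        exact ⟨v, hv, hvi, hv1, hv2⟩
      exact hS τ n hτ1 hne h6 U R _ v' hU hR hv' hvi' hv1' hv2'
    have h4 := key (2 ^ e) hτ hτ1
    have e1 : 8 ^ (2 ^ e + 1) * (2 * 2 ^ e * n) = 2 * M := by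
      rw [hMn, hk1, pow_add 2 (3 * (2 ^ e + 1)) e, pow_mul 2 3 (2 ^ e + 1)]
      norm_num
      ring
    rw [e1] at h4
    refine ⟨(p + 1) * n, ?_, h4⟩
    have h7 : (1 : ℝ) ≤ max n0 6 := by
      have : 1 ≤ max n0 6 := le_trans (by norm_num) (le_max_right n0 6)
      exact_mod_cast this
    have hMr : (M : ℝ) = 2 ^ k1 * n := by exact_mod_cast hMn
    have hNr' : (N : ℝ) = 2 ^ k1 * (max n0 6 : ℕ) := by exact_mod_cast hN
    have h8 : (1 : ℝ) / N * M ≤ n := by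
      rw [one_div_mul_eq_div, div_le_iff₀ hNr, hMr, hNr']
      have h9 : (1 : ℝ) ≤ ((max n0 6 : ℕ) : ℝ) := by exact_mod_cast h7
      have h10 : (0 : ℝ) ≤ 2 ^ k1 * (n : ℝ) := by positivity
      nlinarith
    refine le_trans h8 ?_
    push_cast
    have h11 : (0 : ℝ) ≤ (p : ℝ) * n := by positivity
    linarith

/-- the form for frames -/
theorem frames_of_lin (h : S_LIN) : ∃ (k0 : ℕ) (c : ℝ), 0 < c ∧ ∀ M : ℕ, 1 ≤ M → 2 ^ k0 ∣ M →
    ∃ d : ℕ, c * M ≤ d ∧ ∃ f : (Fin d → ℝ) → Fin (2 * M) → EuclideanSpace ℂ (Fin M),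
      Continuous f ∧ (∀ s, IsETF (f s)) ∧ ∀ s t, Equivalent (f s) (f t) → s = t := by
  obtain ⟨k0, c, hc, h⟩ := h
  refine ⟨k0, c, hc, fun M hM hd => ?_⟩
  obtain ⟨d, hd, hF⟩ := h M hM hd
  exact ⟨d, hd, hF.frames hM⟩

end Pool.Agent.H89.U4
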