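import Pool.Agent.H22.U4.SEQE
import Pool.Agent.H34.U4.LEVE
import Pool.Agent.H34.U4.PVE
import Pool.Agent.H34.U4.UBE
import Pool.Agent.H34.U4.UXE
import Pool.Agent.H34.U4.WFAME
import Pool.Agent.H89.U3.Final
import Pool.Agent.H89.U4.CRNE
import Pool.Agent.H89.U4.EXPE
import Pool.Agent.H89.U4.FAME
import Pool.Agent.H89.U4.FIXE
import Pool.Agent.H89.U4.LIN

/-!
# Project U4: the final theorem
-/

namespace Pool.Agent.H89.U4

open Pool.Agent.H26.U Pool.Agent.H15.U Pool.Agent.H89.MOD Pool.Agent.H89.U3 Pool.Agent.H37.Etf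

/-- the bounded sums -/
theorem vbd : S_VBD :=
  have hG : S_GAM := Pool.Agent.H26.U.GAM
  have hGB : S_GBD := Pool.Agent.H26.U.GBD hG (Pool.Agent.H26.U.PSB hG)
  Pool.Agent.H26.U.VBD (Pool.Agent.H26.U.VRH
    (Pool.Agent.H26.U.FBD hGB hG) Pool.Agent.H26.U.SER hG) Pool.Agent.H20.U.SEC

theorem fixe : S_FIXE := FIXE EXPE Pool.Agent.H34.U4.PVE Pool.Agent.H34.U4.INVE
  Pool.Agent.H34.U.QL Pool.Agent.H34.U4.LEVE Pool.Agent.H34.U.CK0 FAME Pool.Agent.H78.U3.BANC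

theorem lin : S_LIN :=
  LIN (Pool.Agent.H22.U4.SEQE car tri)
    (Pool.Agent.H34.U4.WFAME EXPE fixe (Pool.Agent.H34.U4.UNIE
      (Pool.Agent.H34.U4.UXE Pool.Agent.H34.U4.UBE)) (Pool.Agent.H89.U4C.CRNE vbd)) mainc

/-- there are `k₀` and `c > 0` such that for every `M` divisible by `2 ^ k₀` there is a continuous
family of pairwise inequivalent complex equiangular tight frames of `2M` vectors in `ℂ^M` with at
least `c M` real parameters -/
theorem moduli : ∃ (k0 : ℕ) (c : ℝ), 0 < c ∧ ∀ M : ℕ, 1 ≤ M → 2 ^ k0 ∣ M →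
    ∃ d : ℕ, c * M ≤ d ∧ ∃ f : (Fin d → ℝ) → Fin (2 * M) → EuclideanSpace ℂ (Fin M),
      Continuous f ∧ (∀ s, IsETF (f s)) ∧ ∀ s t, Equivalent (f s) (f t) → s = t :=
  frames_of_lin lin

end Pool.Agent.H89.U4
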